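import Pool.Agent.Q236.SL.Grid

set_option autoImplicit false

/-!
# The union over all constellations, intervals and progressions: low degree
-/

namespace Pool.Agent.Q236.SL

open Finset Filter Polynomial Pool.Agent.Q236.SH
open Pool.Agent.Q236.RP (Box mem_Box card_Box ev_log_ge ev_pow_log)
open Pool.Agent.Q236.CG (BA mem_BA CZ evm)
open Pool.Agent.Q236.MR (pv ap mem_ap sum_ap marg')
open Pool.Agent.H373R2.T7 (pz mem_pz Vz)

variable {m d e : ℕ}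

/-- the admissible data -/
def OkL (E E2 E3 : ℕ) (X : ℕ) (Q : SF m e) (b q a h : ℕ) : Prop :=
  Inj Q ∧ 1 ≤ q ∧ (b : ℝ) ≤ Real.log X ^ E ∧ (q : ℝ) ≤ Real.log X ^ E ∧ (∀ t, (Q.sh t : ℝ) ≤ Real.log X ^ E) ∧
    (∀ t, ((b + q * (a + h) + Q.sh t : ℕ) : ℝ) ≤ Real.log X ^ E3) ∧ Real.log X ^ E2 ≤ h ∧ (a : ℝ) ≤ h * Real.log X ^ E

open Classical in
/-- **All constellations, all long intervals, all progressions.** -/
theorem all_low (N B E d : ℕ) (hN : 1 ≤ N) (hd : N + 1 ≤ d) : ∃ E2 : ℕ, ∀ E3 C : ℕ, ∃ A0 : ℕ, ∀ (A D : ℕ) (ε : ℝ), 0 < ε →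
    ∀ᶠ X : ℕ in atTop, ∀ z : ℕ, Real.log X ^ A0 ≤ z → (z : ℝ) ≤ Real.log X ^ A →
    ∀ m : ℕ, (m : ℝ) ≤ Real.log X ^ E → ∀ (F : Fin m → ℤ[X]) (Z : Fin m → Fin d → ℤ) (Y : Fin m → Fin d → ℕ),
    (∀ i, (F i).natDegree ≤ D) → (∀ i j, (X : ℝ) / Real.log X ^ C ≤ Y i j) →
    (∀ i, ∀ c ∈ Box (Z i) (Y i), ∀ k : ℕ, 1 ≤ k → (k : ℝ) ≤ Real.log X ^ (E3 + 1) →
      (X : ℝ) / Real.log X ^ C ≤ evm (fun k => (F i).eval (k : ℤ)) 1 c k ∧ (evm (fun k => (F i).eval (k : ℤ)) 1 c k : ℝ) ≤ X * Real.log X ^ C) →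
    (((BA Z Y).filter (fun c => ∃ (e : ℕ) (Q : SF m e) (b q a h : ℕ), 1 ≤ e ∧ e ≤ N ∧ OkL E E2 E3 X Q b q a h ∧
      Bad ε X z Q F c b q a h)).card : ℝ) ≤ (BA Z Y).card / Real.log X ^ B := by
  obtain ⟨B', hB'⟩ : ∃ B', B' = B + 2 + (2 * E + 1) * N + 2 * (E + 1) + (E + 4) + 4 := ⟨_, rfl⟩
  obtain ⟨η, hη⟩ : ∃ η : ℕ, η = 2 * (N + B' + 2) := ⟨_, rfl⟩
  refine ⟨N + η + 2, ?_⟩
  intro E3 C
  obtain ⟨C', hC'⟩ : ∃ C', C' = C + E3 + 1 := ⟨_, rfl⟩
  have hmach := fun (n e : ℕ) (he : e ∈ Icc 1 N) => machL n e B' d C' (mem_Icc.1 he).1 (by have := (mem_Icc.1 he).2; omega) (η : ℝ) (by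
    rw [hη]
    push_cast
    have : (e : ℝ) ≤ N := by exact_mod_cast (mem_Icc.1 he).2
    linarith)
  choose A1 hA1 using hmach
  obtain ⟨A0, hA0⟩ : ∃ A0 : ℕ, ∀ n ≤ N, ∀ (e : ℕ) (he : e ∈ Icc 1 N), A1 n e he ≤ A0 := by
    refine ⟨(range (N + 1)).sup (fun n => (Icc 1 N).attach.sup (fun x => A1 n x.1 x.2)), ?_⟩
    intro n hn e he
    have h1 := Finset.le_sup (f := fun x : {x // x ∈ Icc 1 N} => A1 n x.1 x.2) (mem_attach (Icc 1 N) ⟨e, he⟩)
    have h2 := Finset.le_sup (f := fun n => (Icc 1 N).attach.sup (fun x : {x // x ∈ Icc 1 N} => A1 n x.1 x.2)) (mem_range.2 (Nat.lt_succ_of_le hn))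
    exact h1.trans h2
  refine ⟨A0, ?_⟩
  intro A D ε hε
  obtain ⟨δ, hδ⟩ : ∃ δ : ℝ, δ = min ε 1 / 4 := ⟨_, rfl⟩
  have hδ0 : 0 < δ := by rw [hδ]; positivity
  have hall : ∀ᶠ X : ℕ in atTop, ∀ n ∈ range (N + 1), ∀ e : {e // e ∈ Icc 1 N}, ∀ b q z a h : ℕ, 1 ≤ q →
    (z : ℝ) ≤ Real.log X ^ A → Real.log X ^ (A1 n e.1 e.2) ≤ z → Real.log X ^ ((e.1 : ℝ) + η) ≤ h →
    ∀ (Q : SF n e.1) (F : Fin n → ℤ[X]) (Z : Fin n → Fin d → ℤ) (Y : Fin n → Fin d → ℕ) (T : Finset ℕ),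
    (∀ t t', Q.ix t = Q.ix t' → Q.sh t = Q.sh t' → t = t') → (∀ i, (F i).natDegree ≤ max D d) → (∀ k ∈ ap b q a h, ∀ t, k + Q.sh t ∈ T) →
    (∀ i, CZ C' X (fun k => (F i).eval (k : ℤ)) 1 (Z i) (Y i) T) →
    (((BA Z Y).filter (fun c => ¬ |(((Ioc a (a + h)).filter (fun k => ∀ t, (vs Q F c (b + q * k) t).toNat.Prime)).card : ℝ) -
      PQ b q Q F z c / Vz z ^ e.1 * (h / Real.log X ^ e.1)| ≤ δ * (PQ b q Q F z c / Vz z ^ e.1 * (h / Real.log X ^ e.1)))).card : ℝ) ≤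
      (BA Z Y).card / Real.log X ^ B' := by
    rw [Filter.eventually_all_finset]
    intro n _
    rw [Filter.eventually_all]
    intro e
    exact hA1 n e.1 e.2 A (max D d) δ (by have := le_max_right D d; omega) hδ0
  filter_upwards [hall, ev_log_ge 16, ev_log_ge (16 / min ε 1), ev_log_ge ((N + 1 : ℕ) : ℝ), ev_log_ge ((E3 + 1 : ℕ) : ℝ)] with X hall hL2 hLε hLN hLE3 z hzlow hzup m hm F Z Y hF hside hval
  obtain ⟨L, hL⟩ : ∃ L, L = Real.log (X : ℝ) := ⟨_, rfl⟩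
  have hX0 : (0 : ℝ) ≤ X := Nat.cast_nonneg _
  have hOkd : ∀ (e : ℕ) (Q : SF m e) (b q a h : ℕ), OkL E (N + η + 2) E3 X Q b q a h ↔ (Inj Q ∧ 1 ≤ q ∧ (b : ℝ) ≤ L ^ E ∧ (q : ℝ) ≤ L ^ E ∧ (∀ t, (Q.sh t : ℝ) ≤ L ^ E) ∧
    (∀ t, ((b + q * (a + h) + Q.sh t : ℕ) : ℝ) ≤ L ^ E3) ∧ L ^ (N + η + 2) ≤ h ∧ (a : ℝ) ≤ h * L ^ E) := by
    intro e Q b q a h
    rw [hL]
    rfl
  have hLεX := hLε
  have hL16X := hL2
  rw [← hL] at hall hL2 hLε hLN hLE3 hzlow hzup hm hside hval ⊢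
  have hL0 : 0 < L := by linarith
  have hL1 : 1 ≤ L := by linarith
  have hCC : L ^ C ≤ L ^ C' := pow_le_pow_right₀ hL1 (by omega)
  have hEC : L ^ (E3 + 1) ≤ L ^ C' := pow_le_pow_right₀ hL1 (by omega)
  have hdiv : (X : ℝ) / L ^ C' ≤ X / L ^ C := div_le_div_of_nonneg_left hX0 (by positivity) hCC
  obtain ⟨T, hT⟩ : ∃ T : ℕ, T = ⌊L ^ (E3 + 1)⌋₊ := ⟨_, rfl⟩
  have hLE : (0 : ℝ) < L ^ (E3 + 1) := by positivity
  have hTle : (T : ℝ) ≤ L ^ (E3 + 1) := by rw [hT]; exact Nat.floor_le hLE.le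
  obtain ⟨T1, hT1⟩ : ∃ T1 : ℕ, T1 = ⌊L ^ E⌋₊ := ⟨_, rfl⟩
  have hT1le : (T1 : ℝ) ≤ L ^ E := by rw [hT1]; exact Nat.floor_le (by positivity)
  obtain ⟨Tu, hTu⟩ : ∃ Tu : ℕ, Tu = ⌊L ^ (E + 3)⌋₊ := ⟨_, rfl⟩
  have hTule : (Tu : ℝ) ≤ L ^ (E + 3) := by rw [hTu]; exact Nat.floor_le (by positivity)
  obtain ⟨Tr, hTr⟩ : ∃ Tr : ℕ, Tr = ⌊L ^ 3⌋₊ := ⟨_, rfl⟩
  have hTrle : (Tr : ℝ) ≤ L ^ 3 := by rw [hTr]; exact Nat.floor_le (by positivity)
  obtain ⟨Hj, hHj⟩ : ∃ Hj : ℕ → ℕ, Hj = fun j => ⌊L ^ (j - 1)⌋₊ := ⟨_, rfl⟩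
  have hHle : ∀ j, (Hj j : ℝ) ≤ L ^ (j - 1) := by
    intro j
    rw [hHj]
    exact Nat.floor_le (by positivity)
  have hHge : ∀ j, L ^ (j - 1) ≤ 2 * (Hj j : ℝ) := by
    intro j
    have h1 : L ^ (j - 1) < (⌊L ^ (j - 1)⌋₊ : ℝ) + 1 := Nat.lt_floor_add_one _
    have h2 : (1 : ℝ) ≤ L ^ (j - 1) := one_le_pow₀ hL1
    have h3 : 1 ≤ ⌊L ^ (j - 1)⌋₊ := Nat.le_floor (by exact_mod_cast h2)
    have h4 : (1 : ℝ) ≤ (⌊L ^ (j - 1)⌋₊ : ℝ) := by exact_mod_cast h3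
    rw [hHj]
    simp only
    linarith
  have hH1 : ∀ j, 1 ≤ Hj j := by
    intro j
    rw [hHj]
    simp only
    apply Nat.le_floor
    have h2 : (1 : ℝ) ≤ L ^ (j - 1) := one_le_pow₀ hL1
    exact_mod_cast h2
  obtain ⟨W, hW⟩ : ∃ W, W = BA Z Y := ⟨_, rfl⟩
  have hCZ : ∀ i, CZ C' X (fun k => (F i).eval (k : ℤ)) 1 (Z i) (Y i) (Icc 1 T) := by
    intro i
    constructor
    · intro j
      rw [← hL]
      exact hdiv.trans (hside i j)
    · intro k hk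
      rw [mem_Icc] at hk
      rw [← hL]
      have : (k : ℝ) ≤ T := by exact_mod_cast hk.2
      linarith
    · exact one_ne_zero
    · rw [← hL]
      push_cast
      rw [abs_one]
      exact one_le_pow₀ hL1
    · intro k hk c hc
      rw [mem_Icc] at hk
      rw [← hL]
      have : (k : ℝ) ≤ T := by exact_mod_cast hk.2
      exact hdiv.trans (hval i c hc k hk.1 (by linarith)).1
    · intro k hk c hc
      rw [mem_Icc] at hk
      rw [← hL]
      have : (k : ℝ) ≤ T := by exact_mod_cast hk.2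
      exact (hval i c hc k hk.1 (by linarith)).2.trans (mul_le_mul_of_nonneg_left hCC hX0)
  -- the data: scale, b, q, u, r
  obtain ⟨Q5, hQ5⟩ : ∃ Q5 : Finset (ℕ × ℕ × ℕ × ℕ × ℕ), Q5 = range (E3 + 1) ×ˢ range (T1 + 1) ×ˢ range (T1 + 1) ×ˢ range (Tu + 1) ×ˢ range (Tr + 1) := ⟨_, rfl⟩
  obtain ⟨cd, hcd⟩ : ∃ cd : (e : ℕ) → (Fin e → Fin m × ℕ) → (ℕ × ℕ × ℕ × ℕ × ℕ) → Prop, cd = fun (e : ℕ) (f : Fin e → Fin m × ℕ) (x : ℕ × ℕ × ℕ × ℕ × ℕ) =>
    Inj (SF.mk (fun t => (f t).1) (fun t => (f t).2)) ∧ 1 ≤ x.2.2.1 ∧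
      (∀ t, ((x.2.1 + x.2.2.1 * (x.2.2.2.1 * Hj x.1 + x.2.2.2.2 * Hj x.1) + (f t).2 : ℕ) : ℝ) ≤ L ^ (E3 + 1)) ∧ L ^ ((e : ℝ) + η) ≤ (x.2.2.2.2 * Hj x.1 : ℕ) := ⟨_, rfl⟩
  obtain ⟨bd, hbd⟩ : ∃ bd : (e : ℕ) → (Fin e → Fin m × ℕ) → (ℕ × ℕ × ℕ × ℕ × ℕ) → Finset (Fin m → Fin d → ℤ), bd = fun (e : ℕ)
    (f : Fin e → Fin m × ℕ) (x : ℕ × ℕ × ℕ × ℕ × ℕ) => W.filter (fun c => cd e f x ∧
      Bad δ X z (SF.mk (fun t => (f t).1) (fun t => (f t).2)) F c x.2.1 x.2.2.1 (x.2.2.2.1 * Hj x.1) (x.2.2.2.2 * Hj x.1)) := ⟨_, rfl⟩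
  obtain ⟨U, hU⟩ : ∃ U : Finset (Fin m → Fin d → ℤ), U = (Icc 1 N).biUnion (fun e =>
    (Fintype.piFinset fun _ : Fin e => (univ : Finset (Fin m)) ×ˢ range (T1 + 1)).biUnion (fun f => Q5.biUnion (fun x => bd e f x))) := ⟨_, rfl⟩
  rw [← hW]
  have hsub : W.filter (fun c => ∃ (e : ℕ) (Q : SF m e) (b q a h : ℕ), 1 ≤ e ∧ e ≤ N ∧ OkL E (N + η + 2) E3 X Q b q a h ∧
      Bad ε X z Q F c b q a h) ⊆ U := by
    intro c hc
    rw [mem_filter] at hc
    obtain ⟨hcW, e, Q, b, q, a, h, he1, heN, hok, hbad⟩ := hc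
    rw [hOkd] at hok
    obtain ⟨hinj, hq, hb, hqL, hsh, hpts, hh, ha⟩ := hok
    have hq1 : (1 : ℝ) ≤ q := by exact_mod_cast hq
    have hh1 : (1 : ℝ) ≤ h := (one_le_pow₀ hL1).trans hh
    have hh0 : (0 : ℝ) < h := by linarith
    have hahE3 : (q : ℝ) * (a + h) ≤ L ^ E3 := by
      refine le_trans ?_ (hpts ⟨0, by omega⟩)
      push_cast
      have h1 : (0 : ℝ) ≤ b := Nat.cast_nonneg _
      have h2 : (0 : ℝ) ≤ Q.sh ⟨0, by omega⟩ := Nat.cast_nonneg _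
      linarith
    have hhE3 : (h : ℝ) ≤ L ^ E3 := by
      refine le_trans ?_ hahE3
      have h1 : (0 : ℝ) ≤ a := Nat.cast_nonneg _
      nlinarith
    -- the scale
    obtain ⟨j, hj⟩ : ∃ j : ℕ, L ^ j ≤ h ∧ (h : ℝ) < L ^ (j + 1) := by
      have h1 : ∃ j : ℕ, (h : ℝ) < L ^ (j + 1) := by
        refine ⟨E3, lt_of_le_of_lt hhE3 ?_⟩
        rw [pow_succ]
        have : 0 < L ^ E3 := by positivity
        nlinarith
      refine ⟨Nat.find h1, ?_, Nat.find_spec h1⟩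
      by_contra hcon
      push Not at hcon
      have h2 : Nat.find h1 ≠ 0 := by
        intro h3
        rw [h3, pow_zero] at hcon
        linarith
      have h3 := Nat.find_min h1 (m := Nat.find h1 - 1) (by omega)
      apply h3
      rw [Nat.sub_add_cancel (by omega)]
      exact hcon
    have hjE2 : N + η + 1 ≤ j := by
      by_contra hcon
      push Not at hcon
      have h1 : L ^ (j + 1) ≤ L ^ (N + η + 2) := pow_le_pow_right₀ hL1 (by omega)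
      linarith [hj.2]
    have hjE3 : j ≤ E3 := by
      by_contra hcon
      push Not at hcon
      have h1 : L ^ (E3 + 1) ≤ L ^ j := pow_le_pow_right₀ hL1 (by omega)
      have h2 : L ^ E3 < L ^ (E3 + 1) := by
        rw [pow_succ]
        have : 0 < L ^ E3 := by positivity
        nlinarith
      linarith [hj.1]
    have hj1 : L ^ j = L ^ (j - 1) * L := by
      rw [← pow_succ]
      congr 1
      omega
    have hHL : (Hj j : ℝ) * Real.log X ≤ h := by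
      rw [← hL]
      calc (Hj j : ℝ) * L ≤ L ^ (j - 1) * L := mul_le_mul_of_nonneg_right (hHle j) hL0.le
        _ = L ^ j := hj1.symm
        _ ≤ h := hj.1
    have hex : ∃ u r : ℕ, u * Hj j ≤ a + Hj j ∧ 1 ≤ r ∧ r * Hj j ≤ h + 2 * Hj j ∧ u * Hj j + r * Hj j ≤ a + h + Hj j ∧ (h : ℝ) / 2 ≤ (r * Hj j : ℕ) ∧
        Bad δ X z Q F c b q (u * Hj j) (r * Hj j) := by
      by_contra hcon
      push Not at hcon
      apply grid ε hε X z hLεX hL16X Q F c b q a h (Hj j) (hH1 j) hHL ?_ hbad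
      intro u r h1 h2 h3 h4 h5
      rw [← hδ]
      exact hcon u r h1 h2 h3 h4 h5
    obtain ⟨u, r, hu1, hr1, hr2, hur, hrh, hbad'⟩ := hex
    have hHjh : (Hj j : ℝ) ≤ h := by
      have h1 : (0 : ℝ) ≤ Hj j := Nat.cast_nonneg _
      rw [← hL] at hHL
      nlinarith
    have hHpos : (0 : ℝ) < Hj j := by exact_mod_cast hH1 j
    -- h / H ≤ 2 L ^ 2
    have hhH : (h : ℝ) ≤ 2 * L ^ 2 * Hj j := by
      have h1 : (h : ℝ) < L ^ (j - 1) * L ^ 2 := by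
        refine lt_of_lt_of_le hj.2 (le_of_eq ?_)
        rw [← pow_add]
        congr 1
        omega
      have h2 : L ^ (j - 1) * L ^ 2 ≤ (2 * Hj j) * L ^ 2 := mul_le_mul_of_nonneg_right (hHge j) (by positivity)
      linarith
    have hule : u ≤ Tu := by
      rw [hTu]
      apply Nat.le_floor
      have h1 : ((u * Hj j : ℕ) : ℝ) ≤ ((a + Hj j : ℕ) : ℝ) := by exact_mod_cast hu1
      push_cast at h1
      have h2 : (a : ℝ) ≤ (2 * L ^ 2 * Hj j) * L ^ E := ha.trans (mul_le_mul_of_nonneg_right hhH (by positivity))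
      have h3 : (u : ℝ) * Hj j ≤ (2 * L ^ (E + 2) + 1) * Hj j := by
        have : (2 * L ^ 2 * Hj j) * L ^ E = 2 * L ^ (E + 2) * Hj j := by
          rw [pow_add]
          ring
        rw [this] at h2
        linarith
      have h4 : (u : ℝ) ≤ 2 * L ^ (E + 2) + 1 := le_of_mul_le_mul_right h3 hHpos
      have h5 : (1 : ℝ) ≤ L ^ (E + 2) := one_le_pow₀ hL1
      have h6 : L ^ (E + 3) = L ^ (E + 2) * L := by rw [← pow_succ]
      rw [h6]
      nlinarith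
    have hrle : r ≤ Tr := by
      rw [hTr]
      apply Nat.le_floor
      have h1 : ((r * Hj j : ℕ) : ℝ) ≤ ((h + 2 * Hj j : ℕ) : ℝ) := by exact_mod_cast hr2
      push_cast at h1
      have h3 : (r : ℝ) * Hj j ≤ (2 * L ^ 2 + 2) * Hj j := by linarith
      have h4 : (r : ℝ) ≤ 2 * L ^ 2 + 2 := le_of_mul_le_mul_right h3 hHpos
      have h5 : (1 : ℝ) ≤ L ^ 2 := one_le_pow₀ hL1
      have h6 : L ^ 3 = L ^ 2 * L := by ring
      rw [h6]
      nlinarith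
    have hbT : b ≤ T1 := by rw [hT1]; exact Nat.le_floor hb
    have hqT : q ≤ T1 := by rw [hT1]; exact Nat.le_floor hqL
    have hpts' : ∀ t, ((b + q * (u * Hj j + r * Hj j) + Q.sh t : ℕ) : ℝ) ≤ L ^ (E3 + 1) := by
      intro t
      have h1 : ((b + q * (u * Hj j + r * Hj j) + Q.sh t : ℕ) : ℝ) ≤ ((b + q * (a + h + Hj j) + Q.sh t : ℕ) : ℝ) := by
        exact_mod_cast Nat.add_le_add_right (Nat.add_le_add_left (Nat.mul_le_mul_left q hur) b) _
      have h2 := hpts t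
      push_cast at h1 h2 ⊢
      have h3 : (q : ℝ) * Hj j ≤ q * (a + h) := by
        apply mul_le_mul_of_nonneg_left _ (by linarith)
        have : (0 : ℝ) ≤ a := Nat.cast_nonneg _
        linarith
      have h4 : L ^ (E3 + 1) = L ^ E3 * L := by rw [← pow_succ]
      have h5 : (0 : ℝ) ≤ L ^ E3 := by positivity
      rw [h4]
      nlinarith
    have hlen : L ^ ((e : ℝ) + η) ≤ (r * Hj j : ℕ) := by
      refine le_trans ?_ hrh
      have h1 : L ^ ((e : ℝ) + η) ≤ L ^ (N + η) := by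
        rw [← Real.rpow_natCast]
        apply Real.rpow_le_rpow_of_exponent_le hL1
        push_cast
        have : (e : ℝ) ≤ N := by exact_mod_cast heN
        linarith
      have h2 : L ^ (N + η + 1) ≤ L ^ j := pow_le_pow_right₀ hL1 hjE2
      rw [pow_succ] at h2
      have h3 : (0 : ℝ) ≤ L ^ (N + η) := by positivity
      nlinarith [hj.1]
    rw [hU]
    simp only [mem_biUnion]
    refine ⟨e, mem_Icc.2 ⟨he1, heN⟩, fun t => (Q.ix t, Q.sh t), ?_, (j, b, q, u, r), ?_, ?_⟩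
    · rw [Fintype.mem_piFinset]
      intro t
      rw [mem_product, mem_range]
      refine ⟨mem_univ _, ?_⟩
      have h1 : Q.sh t ≤ T1 := by rw [hT1]; exact Nat.le_floor (hsh t)
      simp only
      omega
    · rw [hQ5, mem_product, mem_product, mem_product, mem_product, mem_range, mem_range, mem_range, mem_range, mem_range]
      simp only
      exact ⟨by omega, by omega, by omega, by omega, by omega⟩
    · rw [hbd, hcd]
      simp only
      rw [mem_filter]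
      exact ⟨hcW, ⟨hinj, hq, hpts', hlen⟩, hbad'⟩
  have hone : ∀ e ∈ Icc 1 N, ∀ f ∈ (Fintype.piFinset fun _ : Fin e => (univ : Finset (Fin m)) ×ˢ range (T1 + 1)), ∀ x ∈ Q5,
      ((bd e f x).card : ℝ) ≤ W.card / L ^ B' := by
    intro e he' f _ x _
    have he := he'
    rw [mem_Icc] at he
    obtain ⟨Q, hQ⟩ : ∃ Q : SF m e, Q = SF.mk (fun t => (f t).1) (fun t => (f t).2) := ⟨_, rfl⟩
    by_cases hx : cd e f x
    · obtain ⟨j, b, q, u, r⟩ := x
      have hx2 := hx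
      rw [hcd] at hx2
      simp only at hx2
      rw [← hQ] at hx2
      obtain ⟨hinj, hq, hpts, hh⟩ := hx2
      have hpt : ∀ k ∈ ap b q (u * Hj j) (r * Hj j), ∀ t, k + (rsQ Q).sh t ∈ Icc 1 T := by
        intro k hk t
        unfold ap at hk
        rw [mem_image] at hk
        obtain ⟨l, hl, rfl⟩ := hk
        rw [mem_Ioc] at hl
        have h1 : l ≤ q * l := Nat.le_mul_of_pos_left _ (by omega)
        have h2 : b + q * l ≤ b + q * (u * Hj j + r * Hj j) := Nat.add_le_add_left (Nat.mul_le_mul_left q hl.2) b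
        have h3 : b + q * (u * Hj j + r * Hj j) + Q.sh t ≤ T := by
          rw [hT]
          apply Nat.le_floor
          have := hpts t
          rw [hQ]
          exact this
        have h4 : (rsQ Q).sh t = Q.sh t := rfl
        rw [mem_Icc, h4]
        omega
      have hinj' : ∀ t t', (rsQ Q).ix t = (rsQ Q).ix t' → (rsQ Q).sh t = (rsQ Q).sh t' → t = t' := by
        intro t t' h1 h2
        apply hinj t t' _ h2
        rw [← rsQ_ix Q t, ← rsQ_ix Q t', h1]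
      have hJ : (JQ Q).card ∈ range (N + 1) := by
        rw [mem_range]
        have := card_JQ Q
        omega
      have hJN : (JQ Q).card ≤ N := by
        have := card_JQ Q
        omega
      have h1 := hall (JQ Q).card hJ ⟨e, he'⟩ b q z (u * Hj j) (r * Hj j) hq hzup
        ((pow_le_pow_right₀ hL1 (hA0 _ hJN e he')).trans hzlow) hh (rsQ Q)
        (fun j => F ((JQ Q).orderEmbOfFin rfl j)) (fun j => Z ((JQ Q).orderEmbOfFin rfl j)) (fun j => Y ((JQ Q).orderEmbOfFin rfl j)) (Icc 1 T)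
        hinj' (fun i => (hF _).trans (le_max_left _ _)) hpt (fun i => hCZ _)
      have h2 := marg' (V := Fin d → ℤ) (fun i => Box (Z i) (Y i)) ((JQ Q).orderEmbOfFin rfl) ((JQ Q).orderEmbOfFin rfl).injective
        (fun c => Bad δ X z (rsQ Q) (fun j => F ((JQ Q).orderEmbOfFin rfl j)) c b q (u * Hj j) (r * Hj j)) (1 / L ^ B') (by
          unfold BA at h1
          unfold Bad cntQ
          rw [one_div_mul_eq_div, ← hL]
          refine le_trans (le_of_eq ?_) h1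
          congr)
      rw [one_div_mul_eq_div] at h2
      rw [hW]
      unfold BA
      refine le_trans ?_ h2
      rw [hbd]
      simp only
      rw [hW, ← hQ]
      unfold BA
      exact_mod_cast card_le_card (fun c hc => by
        rw [mem_filter] at hc ⊢
        refine ⟨hc.1, ?_⟩
        have h3 := hc.2.2
        unfold Bad at h3 ⊢
        rw [cnt_rs, PQ_rs]
        exact h3)
    · have : bd e f x = ∅ := by
        rw [hbd]
        simp only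
        rw [filter_eq_empty_iff]
        rintro c _ ⟨h1, _⟩
        exact hx h1
      rw [this, card_empty, Nat.cast_zero]
      positivity
  have hW0 : (0 : ℝ) ≤ W.card / L ^ B' := by positivity
  have hpo : ∀ (T2 i : ℕ), (T2 : ℝ) ≤ L ^ i → (T2 : ℝ) + 1 ≤ L ^ (i + 1) := by
    intro T2 i h
    have h3 : (1 : ℝ) ≤ L ^ i := one_le_pow₀ hL1
    rw [pow_succ]
    nlinarith
  have hT11 : (T1 : ℝ) + 1 ≤ L ^ (E + 1) := hpo T1 E hT1le
  have hTu1 : (Tu : ℝ) + 1 ≤ L ^ (E + 4) := hpo Tu (E + 3) hTule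
  have hTr1 : (Tr : ℝ) + 1 ≤ L ^ 4 := hpo Tr 3 hTrle
  have hQc : (Q5.card : ℝ) ≤ L * ((L ^ (E + 1)) ^ 2 * (L ^ (E + 4) * L ^ 4)) := by
    have h2 : Q5.card = (E3 + 1) * ((T1 + 1) * ((T1 + 1) * ((Tu + 1) * (Tr + 1)))) := by
      rw [hQ5]
      simp only [card_product, card_range]
    rw [h2]
    push_cast at hLE3 ⊢
    calc ((E3 : ℝ) + 1) * (((T1 : ℝ) + 1) * ((T1 + 1) * ((Tu + 1) * (Tr + 1))))
        ≤ L * (L ^ (E + 1) * (L ^ (E + 1) * (L ^ (E + 4) * L ^ 4))) := by gcongr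
      _ = _ := by ring
  have hsum : (U.card : ℝ) ≤ (N : ℝ) * ((L ^ (2 * E + 1)) ^ N * ((L * ((L ^ (E + 1)) ^ 2 * (L ^ (E + 4) * L ^ 4))) * (W.card / L ^ B'))) := by
    rw [hU]
    apply cbu
    · rw [Nat.card_Icc, Nat.add_sub_cancel]
    · positivity
    intro e he
    have heN : e ≤ N := (mem_Icc.1 he).2
    apply cbu
    · rw [Fintype.card_piFinset, Finset.prod_const, card_univ, Fintype.card_fin, card_product, card_univ, Fintype.card_fin, card_range]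
      push_cast
      calc ((m : ℝ) * (T1 + 1)) ^ e ≤ (L ^ E * L ^ (E + 1)) ^ e := by
            apply pow_le_pow_left₀ (by positivity)
            exact mul_le_mul hm hT11 (by positivity) (by positivity)
        _ = (L ^ (2 * E + 1)) ^ e := by
            congr 1
            rw [← pow_add]
            congr 1
            ring
        _ ≤ (L ^ (2 * E + 1)) ^ N := pow_le_pow_right₀ (one_le_pow₀ hL1) heN
    · positivity
    intro f hf
    apply cbu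
    · exact hQc
    · exact hW0
    intro x hx
    exact hone e he f hf x hx
  have h5 := (Nat.cast_le (α := ℝ)).2 (card_le_card hsub)
  refine h5.trans (hsum.trans ?_)
  have hW0 : (0 : ℝ) ≤ W.card := Nat.cast_nonneg _
  have e1 : L ^ B' = L ^ B * (L * ((L ^ (2 * E + 1)) ^ N * (L * ((L ^ (E + 1)) ^ 2 * (L ^ (E + 4) * L ^ 4))))) := by
    rw [hB', ← pow_mul, ← pow_mul, ← pow_add, ← pow_add, ← pow_succ', ← pow_add, ← pow_succ', ← pow_add]
    congr 1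
    ring
  have e2 : (N : ℝ) * ((L ^ (2 * E + 1)) ^ N * ((L * ((L ^ (E + 1)) ^ 2 * (L ^ (E + 4) * L ^ 4))) * (W.card / L ^ B'))) = (N / L) * (W.card / L ^ B) := by
    rw [e1]
    field_simp
  rw [e2]
  calc ((N : ℝ) / L) * (W.card / L ^ B) ≤ 1 * (W.card / L ^ B) := by
        apply mul_le_mul_of_nonneg_right _ (by positivity)
        rw [div_le_one hL0]
        push_cast at hLN
        linarith
    _ = W.card / L ^ B := one_mul _

end Pool.Agent.Q236.SL
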