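import Pool.Agent.Q236.LG.Avg

set_option autoImplicit false

/-!
# Averages over a box: one factor primes minus model, two other factors invariant in one direction each
-/

namespace Pool.Agent.Q236.SL

open Finset Filter Pool.Agent.H807R2.Dav
open Pool.Agent.Q236.RP (ev_log_ge ev_pow_log Box mem_Box card_Box sv sv_sum vp_coeff_le)
open Pool.Agent.Q236.CG (shift_sum' evm evm_sv CZ di di_eq pri pri_nonneg pri_le mi mi_small cl cl_abs cl_eq)
open Pool.Agent.Q236.LG (ap_sup bil bin_range)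

variable {d : ℕ}

/-- **One factor** -/
theorem avg_two (d B C : ℕ) : ∃ A0 : ℕ, ∀ A : ℕ, ∀ᶠ X : ℕ in atTop, ∀ z : ℕ, Real.log X ^ A0 ≤ z →
    (z : ℝ) ≤ Real.log X ^ A → ∀ (f : ℕ → ℤ) (Z : Fin d → ℤ) (Y : Fin d → ℕ) (J1 J2 : Finset ℕ) (k0 : ℕ),
    k0 ∉ J1 → k0 ∉ J2 → J1.card < d → J2.card < d → CZ C X f 1 Z Y (insert k0 (J1 ∪ J2)) →
    ∀ G1 G2 : (Fin d → ℤ) → ℝ, (∀ c, |G1 c| ≤ 1) → (∀ c, |G2 c| ≤ 1) →
    (∀ c (x : ℤ), G1 (c + sv d 1 J1 x) = G1 c) → (∀ c (y : ℤ), G2 (c + sv d 1 J2 y) = G2 c) →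
    |∑ c ∈ Box Z Y, di z (evm f 1 c k0) * (G1 c * G2 c)| ≤ (Box Z Y).card / Real.log X ^ B := by
  obtain ⟨U1, hU1⟩ : ∃ U1, U1 = 2 * (C * d) + C + B + 8 := ⟨_, rfl⟩
  obtain ⟨V, hV⟩ : ∃ V, V = U1 + B + 2 := ⟨_, rfl⟩
  obtain ⟨A0, hA0⟩ := ap_sup V (C + 1)
  refine ⟨A0 + 1, ?_⟩
  intro A
  filter_upwards [hA0 A, mi_small A (C + 1) (1 / 2) (by norm_num), ev_log_ge 16, ev_log_ge (2 ^ d),
    ev_log_ge (2 * d + 1 : ℕ), ev_pow_log (U1 + 1)] with X hsup hmi hL16 hL2d hLd hP z hz1 hz2 f Z Y J1 J2 k0 hk1 hk2 hJ1 hJ2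
    hsz G1 G2 hG1 hG2 hG1v hG2v
  have hL1 : 1 ≤ Real.log X := by linarith
  have hsup := hsup z ((pow_le_pow_right₀ hL1 (by omega)).trans hz1) hz2
  obtain ⟨L, hL⟩ : ∃ L, L = Real.log (X : ℝ) := ⟨_, rfl⟩
  have side := hsz.side
  have pts := hsz.pts
  have low := hsz.low k0 (mem_insert_self _ _)
  have up := hsz.up k0 (mem_insert_self _ _)
  rw [← hL] at hsup hmi hL16 hL2d hLd hP hz1 hz2 hL1 side pts low up ⊢
  have hL0 : 0 < L := by linarith
  have hX1 : (1 : ℝ) ≤ X := (one_le_pow₀ hL1).trans hP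
  have hX0 : (0 : ℝ) < X := by linarith
  have hLp : ∀ j : ℕ, 0 < L ^ j := fun j => by positivity
  have hLp1 : ∀ j : ℕ, 1 ≤ L ^ j := fun j => one_le_pow₀ hL1
  have hLL : ∀ {i j : ℕ}, i ≤ j → L ^ i ≤ L ^ j := fun h => pow_le_pow_right₀ hL1 h
  have hz1' : 1 ≤ z := by
    have : (1 : ℝ) ≤ z := (hLp1 _).trans hz1
    exact_mod_cast this
  have hYpos : ∀ j, 1 ≤ Y j := by
    intro j
    have h1 := side j
    have h2 : (0 : ℝ) < X / L ^ C := by positivity
    have : (0 : ℝ) < Y j := lt_of_lt_of_le h2 h1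
    exact_mod_cast this
  -- the number of shifts
  obtain ⟨N0, hN⟩ : ∃ N0, N0 = ⌊(X : ℝ) / L ^ U1⌋₊ := ⟨_, rfl⟩
  have hXU : 1 ≤ (X : ℝ) / L ^ U1 := by
    rw [one_le_div (hLp _)]
    exact (hLL (by omega)).trans hP
  have hN1 : 1 ≤ N0 := by
    rw [hN]
    exact Nat.floor_pos.2 hXU
  have hNle : (N0 : ℝ) ≤ X / L ^ U1 := by rw [hN]; exact Nat.floor_le (by positivity)
  have hNge : (X : ℝ) / L ^ U1 ≤ 2 * N0 := by
    have h1 := Nat.lt_floor_add_one ((X : ℝ) / L ^ U1)
    rw [← hN] at h1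
    have : (1 : ℝ) ≤ N0 := by exact_mod_cast hN1
    linarith
  have hN0 : (0 : ℝ) < N0 := by exact_mod_cast hN1
  -- the directions
  have hprod0 : ∀ J : Finset ℕ, k0 ∉ J → ∏ s ∈ J, ((k0 : ℤ) - s) ≠ 0 := by
    intro J hJ
    rw [Finset.prod_ne_zero_iff]
    intro s hs
    have : s ≠ k0 := fun h => hJ (h ▸ hs)
    omega
  have hprodabs : ∀ J : Finset ℕ, J ⊆ J1 ∪ J2 → J.card < d → |((∏ s ∈ J, ((k0 : ℤ) - s) : ℤ) : ℝ)| ≤ L ^ (C * d) := by
    intro J hJ hJd
    push_cast
    rw [Finset.abs_prod]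
    calc ∏ s ∈ J, |(k0 : ℝ) - s| ≤ ∏ _s ∈ J, L ^ C := by
          apply Finset.prod_le_prod (fun s _ => abs_nonneg _)
          intro s hs
          have h1 := pts k0 (mem_insert_self _ _)
          have h2 := pts s (mem_insert_of_mem (hJ hs))
          rw [abs_le]
          have : (0 : ℝ) ≤ s := Nat.cast_nonneg s
          have : (0 : ℝ) ≤ k0 := Nat.cast_nonneg k0
          constructor <;> linarith
      _ = L ^ (C * J.card) := by rw [Finset.prod_const, ← pow_mul]
      _ ≤ L ^ (C * d) := hLL (Nat.mul_le_mul_left C hJd.le)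
  obtain ⟨α, hα⟩ : ∃ α : ℤ, α = ∏ s ∈ J1, ((k0 : ℤ) - s) := ⟨_, rfl⟩
  obtain ⟨β, hβ⟩ : ∃ β : ℤ, β = ∏ s ∈ J2, ((k0 : ℤ) - s) := ⟨_, rfl⟩
  have hα0 : α ≠ 0 := by rw [hα]; exact hprod0 J1 hk1
  have hβ0 : β ≠ 0 := by rw [hβ]; exact hprod0 J2 hk2
  have hαb : |(α : ℝ)| ≤ L ^ (C * d) := by rw [hα]; exact hprodabs J1 subset_union_left hJ1
  have hβb : |(β : ℝ)| ≤ L ^ (C * d) := by rw [hβ]; exact hprodabs J2 subset_union_right hJ2
  -- the shift vectors
  have hcoef : ∀ J : Finset ℕ, J ⊆ J1 ∪ J2 → J.card < d → ∀ (τ : ℤ) (j : Fin d), |(sv d 1 J τ j : ℝ)| ≤ |(τ : ℝ)| * L ^ (C * d + 1) := by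
    intro J hJ hJd τ j
    unfold sv
    push_cast
    rw [mul_one, abs_mul]
    apply mul_le_mul_of_nonneg_left _ (abs_nonneg _)
    obtain ⟨K, hK⟩ : ∃ K, K = ⌊L ^ C⌋₊ := ⟨_, rfl⟩
    have hKL : (K : ℝ) ≤ L ^ C := by rw [hK]; exact Nat.floor_le (hLp _).le
    have h1 := vp_coeff_le K J (by
      intro s hs
      rw [hK]
      exact Nat.le_floor (pts s (mem_insert_of_mem (hJ hs)))) j
    have h2 : |((Pool.Agent.Q236.RP.vp J).coeff j : ℝ)| ≤ ((K : ℝ) + 1) ^ J.card := by exact_mod_cast h1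
    refine h2.trans ?_
    calc ((K : ℝ) + 1) ^ J.card ≤ (2 * L ^ C) ^ J.card := by
          apply pow_le_pow_left₀ (by positivity)
          have := hLp1 C
          linarith
      _ ≤ (2 * L ^ C) ^ d := by
          apply pow_le_pow_right₀ _ hJd.le
          have := hLp1 C
          linarith
      _ = 2 ^ d * L ^ (C * d) := by rw [mul_pow, ← pow_mul]
      _ ≤ L * L ^ (C * d) := mul_le_mul_of_nonneg_right hL2d (hLp _).le
      _ = L ^ (C * d + 1) := by ring
  obtain ⟨W, hW⟩ : ∃ W : ℕ → ℕ → Fin d → ℤ, W = fun (x y : ℕ) => sv d 1 J1 (x : ℤ) + sv d 1 J2 (y : ℤ) := ⟨_, rfl⟩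
  have herr : ∀ x y : ℕ, x < N0 → y < N0 → ∑ j, |(W x y j : ℝ)| / Y j ≤ 2 * d / L ^ (B + 4) := by
    intro x y hx hy
    calc ∑ j, |(W x y j : ℝ)| / Y j ≤ ∑ _j : Fin d, (2 : ℝ) / L ^ (B + 4) := by
          apply Finset.sum_le_sum
          intro j _
          have hYi : (0 : ℝ) < Y j := by exact_mod_cast hYpos j
          rw [div_le_div_iff₀ hYi (hLp _), hW]
          simp only [Pi.add_apply]
          push_cast
          have hxb : ∀ w : ℕ, w < N0 → |((w : ℤ) : ℝ)| * L ^ (C * d + 1) ≤ (X / L ^ U1) * L ^ (C * d + 1) := by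
            intro w hw
            apply mul_le_mul_of_nonneg_right _ (hLp _).le
            have : (w : ℝ) ≤ N0 := by exact_mod_cast hw.le
            push_cast
            rw [abs_of_nonneg (Nat.cast_nonneg w)]
            exact this.trans hNle
          calc |(sv d 1 J1 x j : ℝ) + sv d 1 J2 y j| * L ^ (B + 4) ≤
              ((X / L ^ U1) * L ^ (C * d + 1) + (X / L ^ U1) * L ^ (C * d + 1)) * L ^ (B + 4) := by
                apply mul_le_mul_of_nonneg_right _ (hLp _).le
                exact (abs_add_le _ _).trans (add_le_add ((hcoef J1 subset_union_left hJ1 x j).trans (hxb x hx))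
                  ((hcoef J2 subset_union_right hJ2 y j).trans (hxb y hy)))
            _ ≤ 2 * (X / L ^ C) := by
                have e : L ^ U1 = L ^ (C * d + 1) * L ^ (B + 4) * L ^ C * L ^ (C * d + 3) := by rw [hU1]; ring
                rw [e]
                have e2 : (X / (L ^ (C * d + 1) * L ^ (B + 4) * L ^ C * L ^ (C * d + 3)) * L ^ (C * d + 1) +
                    X / (L ^ (C * d + 1) * L ^ (B + 4) * L ^ C * L ^ (C * d + 3)) * L ^ (C * d + 1)) * L ^ (B + 4) =
                    2 * (X / L ^ C / L ^ (C * d + 3)) := by field_simp; ring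
                rw [e2]
                have := div_le_self (show (0 : ℝ) ≤ X / L ^ C by positivity) (hLp1 (C * d + 3))
                linarith
            _ ≤ 2 * Y j := by
                have := side j
                linarith
      _ = 2 * d / L ^ (B + 4) := by
          rw [Finset.sum_const, card_univ, Fintype.card_fin, nsmul_eq_mul]
          ring
  -- the values at the shifted points
  have hval : ∀ (c : Fin d → ℤ) (x y : ℕ), evm f 1 (c + W x y) k0 = evm f 1 c k0 + (α * x + β * y) := by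
    intro c x y
    rw [hW]
    simp only
    rw [← add_assoc, evm_sv _ _ _ J2 hJ2, evm_sv _ _ _ J1 hJ1, one_mul, one_mul, ← hα, ← hβ]
    ring
  have hμb : ∀ x y : ℕ, x < N0 → y < N0 → |((α * x + β * y : ℤ) : ℝ)| ≤ X / L ^ (C + 1) := by
    intro x y hx hy
    push_cast
    have hx' : (x : ℝ) ≤ X / L ^ U1 := le_trans (by exact_mod_cast hx.le) hNle
    have hy' : (y : ℝ) ≤ X / L ^ U1 := le_trans (by exact_mod_cast hy.le) hNle
    have hx0 : (0 : ℝ) ≤ x := Nat.cast_nonneg x
    have hy0 : (0 : ℝ) ≤ y := Nat.cast_nonneg y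
    calc |(α : ℝ) * x + β * y| ≤ |(α : ℝ) * x| + |(β : ℝ) * y| := abs_add_le _ _
      _ = |(α : ℝ)| * x + |(β : ℝ)| * y := by rw [abs_mul, abs_mul, abs_of_nonneg hx0, abs_of_nonneg hy0]
      _ ≤ L ^ (C * d) * (X / L ^ U1) + L ^ (C * d) * (X / L ^ U1) := by gcongr
      _ ≤ X / L ^ (C + 1) := by
          have e : L ^ U1 = L ^ (C * d) * L ^ (C + 1) * L * L ^ (C * d + B + 6) := by rw [hU1]; ring
          rw [e]
          have e2 : L ^ (C * d) * (X / (L ^ (C * d) * L ^ (C + 1) * L * L ^ (C * d + B + 6))) +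
              L ^ (C * d) * (X / (L ^ (C * d) * L ^ (C + 1) * L * L ^ (C * d + B + 6))) =
              (X / L ^ (C + 1)) * ((2 / L) * (1 / L ^ (C * d + B + 6))) := by field_simp; ring
          rw [e2]
          have h1 : (2 / L) * (1 / L ^ (C * d + B + 6)) ≤ 1 := by
            have h2 : 2 / L ≤ 1 := by rw [div_le_one hL0]; linarith
            have h3 : 1 / L ^ (C * d + B + 6) ≤ 1 := by rw [div_le_one (hLp _)]; exact hLp1 _
            exact mul_le_one₀ h2 (by positivity) h3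
          have h4 : 0 ≤ X / L ^ (C + 1) := by positivity
          nlinarith
  have hrange : ∀ c ∈ Box Z Y, ∀ μ : ℤ, |(μ : ℝ)| ≤ X / L ^ (C + 1) →
      (X : ℝ) / L ^ (C + 1) ≤ ((evm f 1 c k0 + μ : ℤ) : ℝ) ∧ ((evm f 1 c k0 + μ : ℤ) : ℝ) ≤ X * L ^ (C + 1) := by
    intro c hc μ hμ
    have h1 := low c hc
    have h2 := up c hc
    have h5 := abs_le.1 hμ
    have h6 : 2 * ((X : ℝ) / L ^ (C + 1)) ≤ X / L ^ C := by
      rw [pow_succ, ← div_div, mul_div_assoc', div_le_iff₀ hL0]
      have : 0 < X / L ^ C := by positivity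
      nlinarith
    have h7 : X * L ^ C + X / L ^ (C + 1) ≤ X * L ^ (C + 1) := by
      have h8 : X / L ^ (C + 1) ≤ X := div_le_self hX0.le (hLp1 _)
      have h9 : X ≤ X * L ^ C := le_mul_of_one_le_right hX0.le (hLp1 _)
      have h10 : 2 * (X * L ^ C) ≤ X * L ^ (C + 1) := by
        rw [pow_succ]
        have : 0 < X * L ^ C := by positivity
        nlinarith
      linarith
    push_cast
    constructor <;> linarith [h5.1, h5.2]
  have hdi : ∀ v : ℤ, (X : ℝ) / L ^ (C + 1) ≤ v → |di z v| ≤ 1 := by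
    intro v hv
    have h1 := hmi z v hz1' hz2 hv
    have h2 : L ^ (1 / 2 : ℝ) / L ≤ 1 := by
      rw [div_le_one hL0]
      calc L ^ (1 / 2 : ℝ) ≤ L ^ (1 : ℝ) := Real.rpow_le_rpow_of_exponent_le hL1 (by norm_num)
        _ = L := Real.rpow_one L
    rw [di_eq, abs_le]
    have h3 := pri_nonneg v
    have h4 := pri_le v
    constructor <;> linarith [h1.1, h1.2]
  -- the sums over the planes
  obtain ⟨F, hF⟩ : ∃ F : (Fin d → ℤ) → ℝ, F = fun c => cl (di z (evm f 1 c k0) * (G1 c * G2 c)) := ⟨_, rfl⟩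
  have hF1 : ∀ c, |F c| ≤ 1 := by
    intro c
    rw [hF]
    exact cl_abs _
  have hFs : ∀ c ∈ Box Z Y, ∀ x y : ℕ, x < N0 → y < N0 → F (c + W x y) =
      di z (evm f 1 c k0 + (α * x + β * y)) * (G2 (c + sv d 1 J1 x) * G1 (c + sv d 1 J2 y)) := by
    intro c hc x y hx hy
    rw [hF]
    simp only
    have e1 : G2 (c + W x y) = G2 (c + sv d 1 J1 x) := by
      rw [hW]
      simp only
      rw [← add_assoc, hG2v]
    have e2 : G1 (c + W x y) = G1 (c + sv d 1 J2 y) := by
      rw [hW]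
      simp only
      rw [add_comm (sv d 1 J1 (x : ℤ)), ← add_assoc, hG1v]
    rw [e1, e2, hval, cl_eq]
    · ring
    · have h1 := hdi _ (hrange c hc _ (hμb x y hx hy)).1
      rw [abs_mul, abs_mul]
      apply mul_le_one₀ h1
      · positivity
      · exact mul_le_one₀ (hG1 _) (abs_nonneg _) (hG2 _)
  obtain ⟨M, hM⟩ : ∃ M : ℕ, M = (α.natAbs + β.natAbs) * N0 + 1 := ⟨_, rfl⟩
  obtain ⟨lo, hlo⟩ : ∃ lo : ℤ, lo = min α 0 * N0 + min β 0 * N0 := ⟨_, rfl⟩
  obtain ⟨S, hS⟩ : ∃ S : ℝ, S = X / L ^ V := ⟨_, rfl⟩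
  have hXC : 1 ≤ X / L ^ (C + 1) := by
    rw [one_le_div (hLp _)]
    exact (hLL (by omega)).trans hP
  have hline : ∀ c ∈ Box Z Y, |∑ x ∈ range N0, ∑ y ∈ range N0, F (c + W x y)| ≤ S * N0 := by
    intro c hc
    have h1 := bil N0 M α β lo hα0 hβ0 (by
        rw [hM]
        have : α.natAbs * N0 ≤ (α.natAbs + β.natAbs) * N0 := Nat.mul_le_mul_right _ (Nat.le_add_right _ _)
        omega) (by
        rw [hM]
        have : β.natAbs * N0 ≤ (α.natAbs + β.natAbs) * N0 := Nat.mul_le_mul_right _ (Nat.le_add_left _ _)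
        omega) (by
        intro x y hx hy
        have h2 := bin_range α β N0 x y hx hy
        rw [hlo, hM]
        push_cast at h2 ⊢
        constructor
        · exact h2.1
        · linarith [h2.2])
      (fun μ => di z (evm f 1 c k0 + μ)) (fun x => G2 (c + sv d 1 J1 x)) (fun y => G1 (c + sv d 1 J2 y))
      (fun x => hG2 _) (fun y => hG1 _) S (by
        intro θ
        have h2 := hsup 1 (evm f 1 c k0 + lo) M one_ne_zero (by
          intro t ht
          have h3 : |((lo + t : ℤ) : ℝ)| ≤ X / L ^ (C + 1) := by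
            have h4 : |lo + t| ≤ (α.natAbs + β.natAbs : ℕ) * N0 := by
              have h5 : (t : ℤ) ≤ (α.natAbs + β.natAbs : ℕ) * N0 := by
                have : t ≤ (α.natAbs + β.natAbs) * N0 := by omega
                exact_mod_cast this
              have h6 : ∀ γ : ℤ, min γ 0 * N0 ≤ 0 ∧ -((γ.natAbs : ℕ) * N0 : ℤ) ≤ min γ 0 * N0 := by
                intro γ
                have hN0z : (0 : ℤ) ≤ N0 := Int.natCast_nonneg _
                rw [Int.natCast_natAbs]
                rcases le_total γ 0 with h | h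
                · rw [min_eq_left h, abs_of_nonpos h]
                  constructor
                  · exact mul_nonpos_of_nonpos_of_nonneg h hN0z
                  · linarith
                · rw [min_eq_right h, abs_of_nonneg h, zero_mul]
                  constructor
                  · exact le_rfl
                  · have := mul_nonneg h hN0z
                    linarith
              have h7 := h6 α
              have h8 := h6 β
              have h9 : (0 : ℤ) ≤ t := Int.natCast_nonneg _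
              push_cast at h5 ⊢
              push_cast at h7 h8
              rw [hlo, abs_le]
              constructor <;> linarith [h7.1, h7.2, h8.1, h8.2]
            have h5 : |((lo + t : ℤ) : ℝ)| ≤ (((α.natAbs + β.natAbs : ℕ)) : ℝ) * N0 := by
              obtain ⟨κ, hκ⟩ : ∃ κ : ℕ, κ = α.natAbs + β.natAbs := ⟨_, rfl⟩
              rw [← hκ] at h4 ⊢
              have h6 : ((|lo + t| : ℤ) : ℝ) ≤ ((κ * N0 : ℤ) : ℝ) := Int.cast_le.2 h4
              rw [← Int.cast_abs]
              refine h6.trans (le_of_eq ?_)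
              push_cast
              rfl
            have h6 : (((α.natAbs + β.natAbs : ℕ)) : ℝ) = |(α : ℝ)| + |(β : ℝ)| := by
              rw [Nat.cast_add, Nat.cast_natAbs, Nat.cast_natAbs]
              push_cast
              rfl
            rw [h6] at h5
            calc |((lo + t : ℤ) : ℝ)| ≤ (|(α : ℝ)| + |(β : ℝ)|) * N0 := h5
              _ ≤ (L ^ (C * d) + L ^ (C * d)) * (X / L ^ U1) := by gcongr
              _ ≤ X / L ^ (C + 1) := by
                  have e : L ^ U1 = L ^ (C * d) * L ^ (C + 1) * L * L ^ (C * d + B + 6) := by rw [hU1]; ring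
                  rw [e]
                  have e2 : (L ^ (C * d) + L ^ (C * d)) * (X / (L ^ (C * d) * L ^ (C + 1) * L * L ^ (C * d + B + 6))) =
                      (X / L ^ (C + 1)) * ((2 / L) * (1 / L ^ (C * d + B + 6))) := by field_simp; ring
                  rw [e2]
                  have h1 : (2 / L) * (1 / L ^ (C * d + B + 6)) ≤ 1 := by
                    have h2 : 2 / L ≤ 1 := by rw [div_le_one hL0]; linarith
                    have h3 : 1 / L ^ (C * d + B + 6) ≤ 1 := by rw [div_le_one (hLp _)]; exact hLp1 _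
                    exact mul_le_one₀ h2 (by positivity) h3
                  have h4 : 0 ≤ X / L ^ (C + 1) := by positivity
                  nlinarith
          have h4 := hrange c hc (lo + t) h3
          have e : evm f 1 c k0 + lo + t * 1 = evm f 1 c k0 + (lo + t) := by ring
          rw [e]
          refine ⟨?_, h4.2⟩
          have : (1 : ℝ) ≤ ((evm f 1 c k0 + (lo + t) : ℤ) : ℝ) := hXC.trans h4.1
          exact_mod_cast this) θ
        rw [hS]
        refine le_trans (le_of_eq ?_) h2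
        congr 1
        apply Finset.sum_congr rfl
        intro t _
        have e : evm f 1 c k0 + (lo + t) = evm f 1 c k0 + lo + t * 1 := by ring
        rw [e])
    refine le_trans (le_of_eq ?_) h1
    congr 1
    apply Finset.sum_congr rfl
    intro x hx
    apply Finset.sum_congr rfl
    intro y hy
    rw [mem_range] at hx hy
    exact hFs c hc x y hx hy
  -- conclusion
  obtain ⟨b, hb⟩ : ∃ b : ℝ, b = (Box Z Y).card := ⟨_, rfl⟩
  have hb0 : 0 ≤ b := by rw [hb]; exact Nat.cast_nonneg _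
  rw [← hb]
  obtain ⟨Tot, hTot⟩ : ∃ Tot : ℝ, Tot = ∑ c ∈ Box Z Y, F c := ⟨_, rfl⟩
  have hshift : ∀ x y : ℕ, x < N0 → y < N0 → |∑ c ∈ Box Z Y, F (c + W x y) - Tot| ≤ 2 * (b / L ^ (B + 3)) := by
    intro x y hx hy
    have h1 := shift_sum' Z Y hYpos (W x y) F hF1
    rw [← hTot, ← hb] at h1
    refine h1.trans ?_
    have h2 := herr x y hx hy
    have e : 2 * (2 * d / L ^ (B + 4) * b) = 2 * ((2 * d / L) * (b / L ^ (B + 3))) := by
      have : L ^ (B + 4) = L ^ (B + 3) * L := by ring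
      rw [this]
      field_simp
    have h4 : 2 * (d : ℝ) / L ≤ 1 := by
      rw [div_le_one hL0]
      push_cast at hLd
      linarith
    calc 2 * ((∑ j, |(W x y j : ℝ)| / Y j) * b) ≤ 2 * (2 * d / L ^ (B + 4) * b) := by gcongr
      _ = 2 * ((2 * d / L) * (b / L ^ (B + 3))) := e
      _ ≤ 2 * (1 * (b / L ^ (B + 3))) := by gcongr
      _ = 2 * (b / L ^ (B + 3)) := by ring
  have h1 : |∑ x ∈ range N0, ∑ y ∈ range N0, ∑ c ∈ Box Z Y, F (c + W x y)| ≤ b * (S * N0) := by
    have e : ∑ x ∈ range N0, ∑ y ∈ range N0, ∑ c ∈ Box Z Y, F (c + W x y) =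
        ∑ c ∈ Box Z Y, ∑ x ∈ range N0, ∑ y ∈ range N0, F (c + W x y) := by
      rw [← Finset.sum_product' (range N0) (range N0) (fun x y => ∑ c ∈ Box Z Y, F (c + W x y)), Finset.sum_comm]
      apply Finset.sum_congr rfl
      intro c _
      rw [Finset.sum_product' (range N0) (range N0) (fun x y => F (c + W x y))]
    rw [e]
    refine (Finset.abs_sum_le_sum_abs _ _).trans ?_
    rw [hb, ← nsmul_eq_mul, ← Finset.sum_const]
    exact Finset.sum_le_sum fun c hc => hline c hc
  have h2 : |∑ x ∈ range N0, ∑ y ∈ range N0, ∑ c ∈ Box Z Y, F (c + W x y) - N0 * (N0 * Tot)| ≤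
      N0 * (N0 * (2 * (b / L ^ (B + 3)))) := by
    have e : (N0 : ℝ) * (N0 * Tot) = ∑ _x ∈ range N0, ∑ _y ∈ range N0, Tot := by
      rw [Finset.sum_const, Finset.sum_const, card_range, nsmul_eq_mul, nsmul_eq_mul]
    rw [e, ← Finset.sum_sub_distrib]
    refine (Finset.abs_sum_le_sum_abs _ _).trans ?_
    calc ∑ x ∈ range N0, |∑ y ∈ range N0, ∑ c ∈ Box Z Y, F (c + W x y) - ∑ _y ∈ range N0, Tot| ≤
        ∑ _x ∈ range N0, (N0 : ℝ) * (2 * (b / L ^ (B + 3))) := by
          apply Finset.sum_le_sum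
          intro x hx
          rw [mem_range] at hx
          rw [← Finset.sum_sub_distrib]
          refine (Finset.abs_sum_le_sum_abs _ _).trans ?_
          calc ∑ y ∈ range N0, |∑ c ∈ Box Z Y, F (c + W x y) - Tot| ≤ ∑ _y ∈ range N0, 2 * (b / L ^ (B + 3)) := by
                apply Finset.sum_le_sum
                intro y hy
                rw [mem_range] at hy
                exact hshift x y hx hy
            _ = N0 * (2 * (b / L ^ (B + 3))) := by rw [Finset.sum_const, card_range, nsmul_eq_mul]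
      _ = N0 * (N0 * (2 * (b / L ^ (B + 3)))) := by rw [Finset.sum_const, card_range, nsmul_eq_mul]
  have h3 : (N0 : ℝ) * (N0 * |Tot|) ≤ b * (S * N0) + N0 * (N0 * (2 * (b / L ^ (B + 3)))) := by
    have e : (N0 : ℝ) * (N0 * |Tot|) = |N0 * (N0 * Tot)| := by
      rw [abs_mul, abs_mul, abs_of_nonneg hN0.le]
    rw [e]
    have e2 : (N0 : ℝ) * (N0 * Tot) = ∑ x ∈ range N0, ∑ y ∈ range N0, ∑ c ∈ Box Z Y, F (c + W x y) -
        (∑ x ∈ range N0, ∑ y ∈ range N0, ∑ c ∈ Box Z Y, F (c + W x y) - N0 * (N0 * Tot)) := by ring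
    rw [e2]
    exact (abs_sub _ _).trans (add_le_add h1 h2)
  have hSle : S ≤ 2 * N0 / L ^ (B + 2) := by
    have e : S = X / L ^ U1 / L ^ (B + 2) := by
      rw [hS, hV]
      have : L ^ (U1 + B + 2) = L ^ U1 * L ^ (B + 2) := by ring
      rw [this, div_div]
    rw [e]
    exact div_le_div_of_nonneg_right hNge (hLp _).le
  have h4 : |Tot| ≤ b / L ^ B := by
    have h5 : (N0 : ℝ) * (N0 * |Tot|) ≤ N0 * (N0 * (b / L ^ B)) := by
      refine h3.trans ?_
      have h6 : b * (S * N0) ≤ N0 * (N0 * (2 / L ^ 2 * (b / L ^ B))) := by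
        calc b * (S * N0) ≤ b * (2 * N0 / L ^ (B + 2) * N0) := by gcongr
          _ = N0 * (N0 * (2 / L ^ 2 * (b / L ^ B))) := by
              rw [pow_add]
              field_simp
      have h7 : (N0 : ℝ) * (N0 * (2 * (b / L ^ (B + 3)))) = N0 * (N0 * (2 / L ^ 3 * (b / L ^ B))) := by
        rw [pow_add]
        field_simp
      rw [h7]
      have h8 : 2 / L ^ 2 + 2 / L ^ 3 ≤ 1 := by
        have h9 : 2 / L ^ 2 ≤ 1 / 2 := by
          rw [div_le_div_iff₀ (hLp 2) (by norm_num)]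
          nlinarith
        have h10 : 2 / L ^ 3 ≤ 2 / L ^ 2 := div_le_div_of_nonneg_left (by norm_num) (hLp 2) (hLL (by norm_num))
        linarith
      have h9 : 0 ≤ (N0 : ℝ) * (N0 * (b / L ^ B)) := by positivity
      calc b * (S * N0) + N0 * (N0 * (2 / L ^ 3 * (b / L ^ B))) ≤
          N0 * (N0 * (2 / L ^ 2 * (b / L ^ B))) + N0 * (N0 * (2 / L ^ 3 * (b / L ^ B))) := by linarith
        _ = (2 / L ^ 2 + 2 / L ^ 3) * (N0 * (N0 * (b / L ^ B))) := by ring
        _ ≤ 1 * (N0 * (N0 * (b / L ^ B))) := mul_le_mul_of_nonneg_right h8 h9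
        _ = _ := one_mul _
    have h6 := le_of_mul_le_mul_left h5 hN0
    exact le_of_mul_le_mul_left h6 hN0
  have hfin : ∑ c ∈ Box Z Y, di z (evm f 1 c k0) * (G1 c * G2 c) = Tot := by
    rw [hTot]
    apply Finset.sum_congr rfl
    intro c hc
    rw [hF]
    simp only
    rw [cl_eq]
    have h1 := hdi _ (by
      have := (hrange c hc 0 (by rw [Int.cast_zero, abs_zero]; positivity)).1
      rwa [add_zero] at this)
    rw [abs_mul, abs_mul]
    apply mul_le_one₀ h1
    · positivity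
    · exact mul_le_one₀ (hG1 _) (abs_nonneg _) (hG2 _)
  rw [hfin]
  exact h4

end Pool.Agent.Q236.SL
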