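import Pool.Agent.Q236.SL.OrthT
import Pool.Agent.Q236.SH.Cg

set_option autoImplicit false

/-!
# The second moment of the primes minus the model
-/

namespace Pool.Agent.Q236.SL

open Finset Filter Polynomial
open Pool.Agent.Q236.RP (ev_log_ge ev_pow_log Box mem_Box card_Box)
open Pool.Agent.Q236.CG (BA mem_BA di pri pri_nonneg pri_le mi mi_small DD PP MM CZ evm card_pts)
open Pool.Agent.Q236.SH (SF vs vs_evm)

variable {n d e : ℕ}

open Classical in
/-- **The primes minus the model on an arbitrary set** -/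
theorem cgL (n d e C B : ℕ) (he : 1 ≤ e) (hd : e + 1 ≤ d) (η : ℝ) (hη : (e : ℝ) + B + 1 ≤ 2 * η) : ∃ A0 : ℕ, ∀ A : ℕ,
    ∀ᶠ X : ℕ in atTop, ∀ z : ℕ, Real.log X ^ A0 ≤ z → (z : ℝ) ≤ Real.log X ^ A →
    ∀ (Q : SF n e) (F : Fin n → ℤ[X]) (Z : Fin n → Fin d → ℤ) (Y : Fin n → Fin d → ℕ) (S T : Finset ℕ),
    (∀ t t', Q.ix t = Q.ix t' → Q.sh t = Q.sh t' → t = t') → (∀ k ∈ S, ∀ t, k + Q.sh t ∈ T) →
    (∀ i, CZ C X (fun k => (F i).eval (k : ℤ)) 1 (Z i) (Y i) T) →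
    (((BA Z Y).filter (fun c => Real.log X ^ η * Real.sqrt (1 + S.card / Real.log X ^ e) <
      |∑ k ∈ S, DD z (vs Q F c k)|)).card : ℝ) ≤ (BA Z Y).card / Real.log X ^ B := by
  obtain ⟨A0, hA0⟩ := orthT n d e (C + 2) C hd
  refine ⟨A0, ?_⟩
  intro A
  filter_upwards [hA0 A, mi_small A C (1 / 2) (by norm_num), ev_log_ge 2, ev_log_ge ((e : ℝ) ^ 2 + 1),
    ev_pow_log (C + 1)] with X horth hmi hL2 hLe hP z hz1 hz2 Q F Z Y S T hinj hST hsz
  have hn : 0 < n := (Q.ix ⟨0, he⟩).pos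
  have hpts : ∀ k ∈ S, (k : ℝ) ≤ Real.log X ^ C := by
    intro k hk
    have h1 := (hsz ⟨0, hn⟩).pts _ (hST k hk ⟨0, he⟩)
    push_cast at h1
    have h2 : (0 : ℝ) ≤ (Q.sh ⟨0, he⟩ : ℝ) := Nat.cast_nonneg _
    linarith
  obtain ⟨L, hL⟩ : ∃ L, L = Real.log (X : ℝ) := ⟨_, rfl⟩
  have horth2 := fun (k l : ℕ) hk hl hfree => horth z hz1 hz2 Q F Z Y T k l hinj hk hl hfree hsz
  rw [← hL] at horth2 hmi hL2 hLe hP hz1 hz2 hpts ⊢
  have hL0 : 0 < L := by linarith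
  have hL1 : 1 ≤ L := by linarith
  have hLp : ∀ j : ℕ, 0 < L ^ j := fun j => by positivity
  have hLp1 : ∀ j : ℕ, 1 ≤ L ^ j := fun j => one_le_pow₀ hL1
  have hScard := card_pts L C S hL1 hpts
  have hz1' : 1 ≤ z := by
    have : (1 : ℝ) ≤ z := (hLp1 _).trans hz1
    exact_mod_cast this
  obtain ⟨W, hW⟩ : ∃ W, W = BA Z Y := ⟨_, rfl⟩
  have hW0 : (0 : ℝ) ≤ W.card := Nat.cast_nonneg _
  rw [← hW] at horth2 ⊢
  have hlow : ∀ c ∈ W, ∀ k ∈ S, ∀ i, (X : ℝ) / L ^ C ≤ vs Q F c k i := by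
    intro c hc k hk i
    rw [hW, mem_BA] at hc
    have := (hsz (Q.ix i)).low (k + Q.sh i) (hST k hk i) (c (Q.ix i)) (hc _)
    rw [← hL] at this
    rw [vs_evm]
    exact this
  have hmib : ∀ v : ℤ, (X : ℝ) / L ^ C ≤ v → 0 ≤ mi z v ∧ mi z v ≤ 1 := by
    intro v hv
    have h1 := hmi z v hz1' hz2 hv
    refine ⟨h1.1, h1.2.trans ?_⟩
    rw [div_le_one hL0]
    calc L ^ (1 / 2 : ℝ) ≤ L ^ (1 : ℝ) := Real.rpow_le_rpow_of_exponent_le hL1 (by norm_num)
      _ = L := Real.rpow_one L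
  have hDD : ∀ c ∈ W, ∀ k ∈ S, |DD z (vs Q F c k)| ≤ 1 := by
    intro c hc k hk
    have h1 : 0 ≤ PP (vs Q F c k) := Finset.prod_nonneg fun i _ => pri_nonneg _
    have h2 : PP (vs Q F c k) ≤ 1 := Finset.prod_le_one (fun i _ => pri_nonneg _) (fun i _ => pri_le _)
    have h3 : 0 ≤ MM z (vs Q F c k) := Finset.prod_nonneg fun i _ => (hmib _ (hlow c hc k hk i)).1
    have h4 : MM z (vs Q F c k) ≤ 1 := Finset.prod_le_one (fun i _ => (hmib _ (hlow c hc k hk i)).1) (fun i _ => (hmib _ (hlow c hc k hk i)).2)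
    unfold DD
    rw [abs_le]
    constructor <;> linarith
  obtain ⟨conf, hconf⟩ : ∃ conf : ℕ → ℕ → Prop, conf = fun k l => ∃ t t', Q.ix t = Q.ix t' ∧ k + Q.sh t = l + Q.sh t' := ⟨_, rfl⟩
  -- few conflicts
  have hfew : ∀ k ∈ S, (((S.filter (fun l => conf k l)).card : ℕ) : ℝ) ≤ (e : ℝ) ^ 2 := by
    intro k _
    have h1 : S.filter (fun l => conf k l) ⊆ (univ : Finset (Fin e × Fin e)).image (fun x => k + Q.sh x.1 - Q.sh x.2) := by
      intro l hl
      rw [mem_filter, hconf] at hl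
      obtain ⟨_, t, t', _, h2⟩ := hl
      rw [mem_image]
      refine ⟨(t, t'), mem_univ _, ?_⟩
      simp only
      omega
    have h2 := (card_le_card h1).trans card_image_le
    rw [card_univ, Fintype.card_prod, Fintype.card_fin] at h2
    have h3 : (((S.filter (fun l => conf k l)).card : ℕ) : ℝ) ≤ ((e * e : ℕ) : ℝ) := by exact_mod_cast h2
    push_cast at h3
    linarith
  -- the second moment
  have hmom : ∑ c ∈ W, (∑ k ∈ S, DD z (vs Q F c k)) ^ 2 ≤ ((e : ℝ) ^ 2 * S.card + (S.card : ℝ) ^ 2 / L ^ (C + 2)) * W.card := by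
    have e1 : ∀ c ∈ W, (∑ k ∈ S, DD z (vs Q F c k)) ^ 2 = ∑ k ∈ S, ∑ l ∈ S, DD z (vs Q F c k) * DD z (vs Q F c l) := by
      intro c _
      rw [sq, Finset.sum_mul_sum]
    rw [Finset.sum_congr rfl e1, Finset.sum_comm]
    have e2 : ∀ k ∈ S, ∑ c ∈ W, ∑ l ∈ S, DD z (vs Q F c k) * DD z (vs Q F c l) ≤
        (e : ℝ) ^ 2 * W.card + S.card * (W.card / L ^ (C + 2)) := by
      intro k hk
      rw [Finset.sum_comm]
      have e3 : ∀ l ∈ S, ∑ c ∈ W, DD z (vs Q F c k) * DD z (vs Q F c l) ≤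
          (if conf k l then (W.card : ℝ) else 0) + W.card / L ^ (C + 2) := by
        intro l hl
        by_cases hc : conf k l
        · rw [if_pos hc]
          have h1 : ∑ c ∈ W, DD z (vs Q F c k) * DD z (vs Q F c l) ≤ ∑ _c ∈ W, (1 : ℝ) := by
            apply Finset.sum_le_sum
            intro c hcW
            have h2 : |DD z (vs Q F c k) * DD z (vs Q F c l)| ≤ 1 := by
              rw [abs_mul]
              exact mul_le_one₀ (hDD c hcW k hk) (abs_nonneg _) (hDD c hcW l hl)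
            exact (abs_le.1 h2).2
          rw [Finset.sum_const, nsmul_eq_mul, mul_one] at h1
          have h2 : (0 : ℝ) ≤ W.card / L ^ (C + 2) := by positivity
          linarith
        · rw [if_neg hc, zero_add]
          refine le_trans (le_abs_self _) (horth2 k l (hST k hk) (hST l hl) ?_)
          intro t t' h1 h2
          apply hc
          rw [hconf]
          exact ⟨t, t', h1, h2⟩
      refine (Finset.sum_le_sum e3).trans ?_
      rw [Finset.sum_add_distrib, ← Finset.sum_filter, Finset.sum_const, Finset.sum_const, nsmul_eq_mul, nsmul_eq_mul]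
      have h1 := mul_le_mul_of_nonneg_right (hfew k hk) hW0
      linarith
    refine (Finset.sum_le_sum e2).trans (le_of_eq ?_)
    rw [Finset.sum_const, nsmul_eq_mul]
    ring
  obtain ⟨Fb, hFb⟩ : ∃ Fb, Fb = W.filter (fun c => L ^ η * Real.sqrt (1 + S.card / L ^ e) < |∑ k ∈ S, DD z (vs Q F c k)|) := ⟨_, rfl⟩
  obtain ⟨R, hR⟩ : ∃ R : ℝ, R = 1 + S.card / L ^ e := ⟨_, rfl⟩
  have hR1 : 1 ≤ R := by rw [hR]; have : (0 : ℝ) ≤ S.card / L ^ e := by positivity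
                         linarith
  have hLη : 0 < L ^ η := Real.rpow_pos_of_pos hL0 _
  have hcheb : (Fb.card : ℝ) * ((L ^ η) ^ 2 * R) ≤ ∑ c ∈ W, (∑ k ∈ S, DD z (vs Q F c k)) ^ 2 := by
    rw [← nsmul_eq_mul, ← Finset.sum_const]
    calc ∑ _c ∈ Fb, (L ^ η) ^ 2 * R ≤ ∑ c ∈ Fb, (∑ k ∈ S, DD z (vs Q F c k)) ^ 2 := by
          apply Finset.sum_le_sum
          intro c hc
          rw [hFb, mem_filter] at hc
          have h1 := hc.2
          rw [← hR] at h1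
          have h2 : (L ^ η * Real.sqrt R) ^ 2 ≤ |∑ k ∈ S, DD z (vs Q F c k)| ^ 2 := pow_le_pow_left₀ (by positivity) h1.le 2
          rw [mul_pow, Real.sq_sqrt (by linarith), sq_abs] at h2
          exact h2
      _ ≤ ∑ c ∈ W, (∑ k ∈ S, DD z (vs Q F c k)) ^ 2 := by
          apply Finset.sum_le_sum_of_subset_of_nonneg
          · rw [hFb]
            exact filter_subset _ _
          · intro c _ _
            positivity
  have hsize : (e : ℝ) ^ 2 * S.card + (S.card : ℝ) ^ 2 / L ^ (C + 2) ≤ ((e : ℝ) ^ 2 + 1) * L ^ e * R := by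
    have h1 : (S.card : ℝ) ≤ L ^ e * R := by
      rw [hR, mul_add, mul_one, mul_div_cancel₀ _ (hLp e).ne']
      have := (hLp e).le
      linarith
    have h2 : (S.card : ℝ) / L ^ (C + 2) ≤ 1 := by
      rw [div_le_one (hLp _)]
      calc (S.card : ℝ) ≤ 2 * L ^ C := hScard
        _ ≤ L ^ 2 * L ^ C := by
            apply mul_le_mul_of_nonneg_right _ (hLp C).le
            nlinarith
        _ = L ^ (C + 2) := by ring
    have h3 : (S.card : ℝ) ^ 2 / L ^ (C + 2) ≤ L ^ e * R := by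
      calc (S.card : ℝ) ^ 2 / L ^ (C + 2) = S.card * (S.card / L ^ (C + 2)) := by ring
        _ ≤ S.card * 1 := mul_le_mul_of_nonneg_left h2 (Nat.cast_nonneg _)
        _ ≤ L ^ e * R := by rw [mul_one]; exact h1
    have h4 : (e : ℝ) ^ 2 * S.card ≤ (e : ℝ) ^ 2 * (L ^ e * R) := mul_le_mul_of_nonneg_left h1 (by positivity)
    calc (e : ℝ) ^ 2 * S.card + (S.card : ℝ) ^ 2 / L ^ (C + 2) ≤ (e : ℝ) ^ 2 * (L ^ e * R) + L ^ e * R := add_le_add h4 h3
      _ = _ := by ring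
  have h1 : (Fb.card : ℝ) * (L ^ η) ^ 2 ≤ ((e : ℝ) ^ 2 + 1) * L ^ e * W.card := by
    have h2 : (Fb.card : ℝ) * (L ^ η) ^ 2 * R ≤ ((e : ℝ) ^ 2 + 1) * L ^ e * W.card * R := by
      calc (Fb.card : ℝ) * (L ^ η) ^ 2 * R = Fb.card * ((L ^ η) ^ 2 * R) := by ring
        _ ≤ ((e : ℝ) ^ 2 * S.card + (S.card : ℝ) ^ 2 / L ^ (C + 2)) * W.card := hcheb.trans hmom
        _ ≤ ((e : ℝ) ^ 2 + 1) * L ^ e * R * W.card := mul_le_mul_of_nonneg_right hsize hW0
        _ = _ := by ring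
    exact le_of_mul_le_mul_right h2 (by linarith)
  have h2 : ((e : ℝ) ^ 2 + 1) * L ^ e * L ^ B ≤ (L ^ η) ^ 2 := by
    have e1 : (L ^ η) ^ 2 = L ^ (2 * η) := by
      rw [← Real.rpow_natCast, ← Real.rpow_mul hL0.le]
      congr 1
      push_cast
      ring
    rw [e1]
    calc ((e : ℝ) ^ 2 + 1) * L ^ e * L ^ B ≤ L * L ^ e * L ^ B := by gcongr
      _ = L ^ ((e + B + 1 : ℕ) : ℝ) := by
          rw [Real.rpow_natCast]
          ring
      _ ≤ L ^ (2 * η) := by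
          apply Real.rpow_le_rpow_of_exponent_le hL1
          push_cast
          exact hη
  rw [← hFb, le_div_iff₀ (hLp B)]
  have h3 : (Fb.card : ℝ) * L ^ B * (((e : ℝ) ^ 2 + 1) * L ^ e) ≤ W.card * (((e : ℝ) ^ 2 + 1) * L ^ e) := by
    calc (Fb.card : ℝ) * L ^ B * (((e : ℝ) ^ 2 + 1) * L ^ e) = Fb.card * (((e : ℝ) ^ 2 + 1) * L ^ e * L ^ B) := by ring
      _ ≤ Fb.card * (L ^ η) ^ 2 := mul_le_mul_of_nonneg_left h2 (Nat.cast_nonneg _)
      _ ≤ ((e : ℝ) ^ 2 + 1) * L ^ e * W.card := h1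
      _ = _ := by ring
  exact le_of_mul_le_mul_right h3 (by positivity)

end Pool.Agent.Q236.SL
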