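import Pool.Agent.Q236.SL.MachL
import Pool.Agent.Q236.SH.AllS

set_option autoImplicit false

/-!
# From the intervals of a grid to all intervals
-/

namespace Pool.Agent.Q236.SL

open Finset Filter Polynomial Pool.Agent.Q236.SH
open Pool.Agent.H373R2.T7 (pz mem_pz Vz Vz_pos)

variable {m d e : ℕ}

lemma cnt_mono (Q : SF m e) (F : Fin m → ℤ[X]) (c : Fin m → Fin d → ℤ) (b q a h a' h' : ℕ) (h1 : a' ≤ a) (h2 : a + h ≤ a' + h') :
    cntQ Q F c b q a h ≤ cntQ Q F c b q a' h' := by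
  classical
  unfold cntQ
  apply card_le_card
  intro k hk
  rw [mem_filter, mem_Ioc] at hk ⊢
  exact ⟨⟨by omega, by omega⟩, hk.2⟩

/-- **From the grid to all intervals** -/
lemma grid (ε : ℝ) (hε : 0 < ε) (X z : ℕ) (hL : 16 / min ε 1 ≤ Real.log X) (hL0 : 16 ≤ Real.log X) (Q : SF m e) (F : Fin m → ℤ[X])
    (c : Fin m → Fin d → ℤ) (b q a h H : ℕ) (hH : 1 ≤ H) (hHh : (H : ℝ) * Real.log X ≤ h)
    (hgrid : ∀ u r : ℕ, u * H ≤ a + H → 1 ≤ r → r * H ≤ h + 2 * H → u * H + r * H ≤ a + h + H → (h : ℝ) / 2 ≤ (r * H : ℕ) →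
      ¬ Bad (min ε 1 / 4) X z Q F c b q (u * H) (r * H)) : ¬ Bad ε X z Q F c b q a h := by
  obtain ⟨L, hLd⟩ : ∃ L, L = Real.log (X : ℝ) := ⟨_, rfl⟩
  obtain ⟨δ, hδ⟩ : ∃ δ : ℝ, δ = min ε 1 := ⟨_, rfl⟩
  have hδ0 : 0 < δ := by rw [hδ]; positivity
  have hδ1 : δ ≤ 1 := by rw [hδ]; exact min_le_right _ _
  have hδε : δ ≤ ε := by rw [hδ]; exact min_le_left _ _
  unfold Bad at hgrid ⊢
  rw [← hLd] at hL hL0 hHh hgrid ⊢
  rw [← hδ] at hL hgrid
  have hLpos : 0 < L := by linarith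
  obtain ⟨G, hG⟩ : ∃ G : ℝ, G = PQ b q Q F z c / Vz z ^ e := ⟨_, rfl⟩
  have hG0 : 0 ≤ G := by
    rw [hG]
    exact div_nonneg (PQ_nonneg b q Q F z c) (pow_nonneg (Vz_pos z).le _)
  rw [← hG] at hgrid ⊢
  have hLe : 0 < L ^ e := by positivity
  have hHr : (1 : ℝ) ≤ H := by exact_mod_cast hH
  have hh0 : (0 : ℝ) < h := by nlinarith
  have hδL : 16 ≤ L * δ := by rwa [div_le_iff₀ hδ0] at hL
  -- the length of a block is small
  have hHd : (H : ℝ) ≤ δ / 16 * h := by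
    have h1 : (H : ℝ) * 16 ≤ H * (L * δ) := mul_le_mul_of_nonneg_left hδL (by linarith)
    have h2 : (H : ℝ) * (L * δ) ≤ h * δ := by
      calc (H : ℝ) * (L * δ) = (H * L) * δ := by ring
        _ ≤ h * δ := mul_le_mul_of_nonneg_right hHh hδ0.le
    linarith
  have hH16 : (H : ℝ) ≤ h / 16 := by nlinarith
  have hHn : 16 * H ≤ h := by
    have : (16 : ℝ) * H ≤ h := by linarith
    exact_mod_cast this
  -- inner interval
  obtain ⟨u1, hu1⟩ : ∃ u1 : ℕ, u1 = (a + H - 1) / H := ⟨_, rfl⟩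
  have hu1a : a ≤ u1 * H ∧ u1 * H < a + H := by
    have h1 := Nat.div_add_mod (a + H - 1) H
    have h2 := Nat.mod_lt (a + H - 1) hH
    rw [hu1, Nat.mul_comm]
    omega
  obtain ⟨r1, hr1⟩ : ∃ r1 : ℕ, r1 = (a + h - u1 * H) / H := ⟨_, rfl⟩
  have hr1a : u1 * H + r1 * H ≤ a + h ∧ a + h < u1 * H + r1 * H + H := by
    have h1 := Nat.div_add_mod (a + h - u1 * H) H
    have h2 := Nat.mod_lt (a + h - u1 * H) hH
    rw [← hr1, Nat.mul_comm] at h1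
    omega
  have hr1h : h ≤ r1 * H + 2 * H := by omega
  have hr1p : 1 ≤ r1 := by
    by_contra hcon
    have : r1 = 0 := by omega
    rw [this, Nat.zero_mul] at hr1h
    omega
  have hr1half : (h : ℝ) / 2 ≤ (r1 * H : ℕ) := by
    have h1 : (h : ℝ) ≤ ((r1 * H : ℕ) : ℝ) + 2 * H := by exact_mod_cast hr1h
    linarith
  have hin := hgrid u1 r1 (by omega) hr1p (by omega) (by omega) hr1half
  rw [not_not] at hin
  -- outer interval
  obtain ⟨u2, hu2⟩ : ∃ u2 : ℕ, u2 = a / H := ⟨_, rfl⟩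
  have hu2a : u2 * H ≤ a ∧ a < u2 * H + H := by
    have h1 := Nat.div_add_mod a H
    have h2 := Nat.mod_lt a hH
    rw [← hu2, Nat.mul_comm] at h1
    omega
  obtain ⟨r2, hr2⟩ : ∃ r2 : ℕ, r2 = (a + h + H - 1 - u2 * H) / H := ⟨_, rfl⟩
  have hr2a : a + h ≤ u2 * H + r2 * H ∧ u2 * H + r2 * H < a + h + H := by
    have h1 := Nat.div_add_mod (a + h + H - 1 - u2 * H) H
    have h2 := Nat.mod_lt (a + h + H - 1 - u2 * H) hH
    rw [← hr2, Nat.mul_comm] at h1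
    omega
  have hr2p : 1 ≤ r2 := by
    by_contra hcon
    have : r2 = 0 := by omega
    rw [this, Nat.zero_mul] at hr2a
    omega
  have hr2half : (h : ℝ) / 2 ≤ (r2 * H : ℕ) := by
    have h1 : h ≤ r2 * H + H := by omega
    have h2 : (h : ℝ) ≤ ((r2 * H : ℕ) : ℝ) + H := by exact_mod_cast h1
    linarith
  have hout := hgrid u2 r2 (by omega) hr2p (by omega) (by omega) hr2half
  rw [not_not] at hout
  have hm1 : (cntQ Q F c b q (u1 * H) (r1 * H) : ℝ) ≤ cntQ Q F c b q a h := by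
    exact_mod_cast cnt_mono Q F c b q _ _ _ _ hu1a.1 hr1a.1
  have hm2 : (cntQ Q F c b q a h : ℝ) ≤ cntQ Q F c b q (u2 * H) (r2 * H) := by
    exact_mod_cast cnt_mono Q F c b q _ _ _ _ hu2a.1 hr2a.1
  have hl1 : (h : ℝ) - 2 * H ≤ (r1 * H : ℕ) := by
    have h1 : (h : ℝ) ≤ ((r1 * H : ℕ) : ℝ) + 2 * H := by exact_mod_cast hr1h
    linarith
  have hl2 : ((r2 * H : ℕ) : ℝ) ≤ h + 2 * H := by
    have h1 : r2 * H ≤ h + 2 * H := by omega
    exact_mod_cast h1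
  obtain ⟨x1, hx1⟩ : ∃ x1 : ℝ, x1 = (r1 * H : ℕ) := ⟨_, rfl⟩
  obtain ⟨x2, hx2⟩ : ∃ x2 : ℝ, x2 = (r2 * H : ℕ) := ⟨_, rfl⟩
  rw [← hx1] at hin hl1
  rw [← hx2] at hout hl2
  obtain ⟨g, hg⟩ : ∃ g : ℝ, g = G / L ^ e := ⟨_, rfl⟩
  have hg0 : 0 ≤ g := by rw [hg]; positivity
  have e1 : ∀ x : ℝ, G * (x / L ^ e) = g * x := by intro x; rw [hg]; ring
  rw [e1] at hin hout ⊢
  rw [not_not]
  have hin1 := (abs_le.1 hin).1
  have hout1 := (abs_le.1 hout).2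
  have k1 : x1 ≥ (1 - δ / 8) * h := by nlinarith
  have k2 : x2 ≤ (1 + δ / 8) * h := by nlinarith
  have k3 : g * ((1 - δ / 8) * h) ≤ g * x1 := mul_le_mul_of_nonneg_left k1 hg0
  have k4 : g * x2 ≤ g * ((1 + δ / 8) * h) := mul_le_mul_of_nonneg_left k2 hg0
  have hgh : 0 ≤ g * h := by positivity
  have k5 : δ * (g * h) ≤ ε * (g * h) := mul_le_mul_of_nonneg_right hδε hgh
  have hd4 : 0 ≤ 1 - δ / 4 := by linarith
  rw [abs_le]
  constructor
  · have k6 : (1 - δ / 4) * (g * ((1 - δ / 8) * h)) ≤ (1 - δ / 4) * (g * x1) := mul_le_mul_of_nonneg_left k3 hd4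
    have k7 : (1 - δ) * (g * h) ≤ (1 - δ / 4) * (g * ((1 - δ / 8) * h)) := by
      have : (1 - δ / 4) * (g * ((1 - δ / 8) * h)) = ((1 - δ / 4) * (1 - δ / 8)) * (g * h) := by ring
      rw [this]
      apply mul_le_mul_of_nonneg_right _ hgh
      nlinarith
    linarith
  · have k6 : (1 + δ / 4) * (g * x2) ≤ (1 + δ / 4) * (g * ((1 + δ / 8) * h)) := mul_le_mul_of_nonneg_left k4 (by positivity)
    have k7 : (1 + δ / 4) * (g * ((1 + δ / 8) * h)) ≤ (1 + δ) * (g * h) := by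
      have : (1 + δ / 4) * (g * ((1 + δ / 8) * h)) = ((1 + δ / 4) * (1 + δ / 8)) * (g * h) := by ring
      rw [this]
      apply mul_le_mul_of_nonneg_right _ hgh
      nlinarith
    linarith

end Pool.Agent.Q236.SL
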