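import Pool.Agent.Q236.SH.LocC

set_option autoImplicit false

/-!
# Values at two points: near independence with few coefficients
-/

namespace Pool.Agent.Q236.SL

open Finset Polynomial
open Pool.Agent.Q236.MR (pv phi Fz rd phi2_surj card_fun card_arr count_surj Om mem_Om card_Om Om_pos class_ap Om_count)
open Pool.Agent.Q236.SH

variable {n d e : ℕ}

section Mod

variable (p : ℕ) [Fact p.Prime]

/-- the value of an array at a point -/
def vv (c : Fin n → Fin d → ZMod p) (x : Fin n × ZMod p) : ZMod p := ∑ j, c x.1 j * x.2 ^ (j : ℕ)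

open Classical in
/-- the number of the arrays with prescribed zeros -/
lemma count_zero (Q : Finset (Fin n × ZMod p)) (hQ : Q.card ≤ d) (f : Fin n × ZMod p → ZMod p) :
    ((univ.filter (fun c : Fin n → Fin d → ZMod p => ∀ x ∈ Q, f x + vv p c x = 0)).card : ℝ) =
      1 / (p : ℝ) ^ Q.card * ((p ^ d) ^ n : ℕ) := by
  have hpp := (Fact.out : p.Prime)
  have hp0 : (0 : ℝ) < p := by exact_mod_cast hpp.pos
  have h := count_surj (ph (d := d) p Q) (ph_surj p Q hQ) (fun u : Q → ZMod p => ∀ x : Q, f x + u x = 0)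
  have h1 : (univ.filter (fun u : Q → ZMod p => ∀ x : Q, f x + u x = 0)).card = 1 := by
    rw [Finset.card_eq_one]
    refine ⟨fun x => -f x, ?_⟩
    ext u
    rw [mem_filter, mem_singleton]
    constructor
    · rintro ⟨_, hu⟩
      funext x
      have := hu x
      linear_combination this
    · intro hu
      refine ⟨mem_univ _, ?_⟩
      intro x
      rw [hu]
      ring
  have h2 : (univ.filter (fun c : Fin n → Fin d → ZMod p => ∀ x ∈ Q, f x + vv p c x = 0)) =
      univ.filter (fun c : Fin n → Fin d → ZMod p => ∀ x : Q, f x + ph p Q c x = 0) := by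
    apply Finset.filter_congr
    intro c _
    constructor
    · intro hc x
      exact hc x x.2
    · intro hc x hx
      exact hc ⟨x, hx⟩
  rw [h1, one_mul, card_arr, Fintype.card_fun, ZMod.card, Fintype.card_coe] at h
  rw [h2]
  have h' : ((univ.filter (fun c : Fin n → Fin d → ZMod p => ∀ x : Q, f x + ph p Q c x = 0)).card : ℝ) * (p : ℝ) ^ Q.card =
      ((p ^ d) ^ n : ℕ) := by
    exact_mod_cast h
  rw [one_div_mul_eq_div, eq_div_iff (by positivity)]
  exact h'

open Classical in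
/-- **the arrays without a zero: two terms of the sieve** -/
lemma count_le (Q : Finset (Fin n × ZMod p)) (hd : 2 ≤ d) (f : Fin n × ZMod p → ZMod p) :
    ((univ.filter (fun c : Fin n → Fin d → ZMod p => ∀ x ∈ Q, f x + vv p c x ≠ 0)).card : ℝ) ≤
      (1 - Q.card / (p : ℝ) + (Q.card : ℝ) ^ 2 / (2 * (p : ℝ) ^ 2)) * ((p ^ d) ^ n : ℕ) := by
  have hpp := (Fact.out : p.Prime)
  have hp0 : (0 : ℝ) < p := by exact_mod_cast hpp.pos
  obtain ⟨T, hT⟩ : ∃ T : ℝ, T = (((p ^ d) ^ n : ℕ) : ℝ) := ⟨_, rfl⟩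
  have hT0 : 0 ≤ T := by rw [hT]; positivity
  have huniv : ((univ : Finset (Fin n → Fin d → ZMod p)).card : ℝ) = T := by
    rw [card_univ, card_arr, hT]
  obtain ⟨Zr, hZr⟩ : ∃ Zr : (Fin n → Fin d → ZMod p) → Fin n × ZMod p → ℝ, Zr = fun c x => if f x + vv p c x = 0 then 1 else 0 := ⟨_, rfl⟩
  obtain ⟨t, ht⟩ : ∃ t : (Fin n → Fin d → ZMod p) → ℝ, t = fun c => ∑ x ∈ Q, Zr c x := ⟨_, rfl⟩
  have htn : ∀ c, t c = ((Q.filter (fun x => f x + vv p c x = 0)).card : ℝ) := by
    intro c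
    rw [ht, hZr]
    simp only
    rw [← Finset.sum_filter, Finset.sum_const, nsmul_eq_mul, mul_one]
  have hpt : ∀ c, (if (∀ x ∈ Q, f x + vv p c x ≠ 0) then (1 : ℝ) else 0) ≤ 1 - t c + (t c ^ 2 - t c) / 2 := by
    intro c
    by_cases hc : ∀ x ∈ Q, f x + vv p c x ≠ 0
    · rw [if_pos hc]
      have h0 : t c = 0 := by
        rw [htn, Nat.cast_eq_zero, card_eq_zero, filter_eq_empty_iff]
        exact fun x hx => hc x hx
      rw [h0]
      norm_num
    · rw [if_neg hc, htn]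
      obtain ⟨m, hm⟩ : ∃ m, m = (Q.filter (fun x => f x + vv p c x = 0)).card := ⟨_, rfl⟩
      rw [← hm]
      have h1 : 1 ≤ m := by
        rw [hm]
        apply card_pos.2
        push Not at hc
        obtain ⟨x, hx, hx0⟩ := hc
        exact ⟨x, mem_filter.2 ⟨hx, hx0⟩⟩
      have h2 : (0 : ℝ) ≤ ((m : ℝ) - 1) * (m - 2) := by
        rcases Nat.lt_or_ge m 2 with h3 | h3
        · have : m = 1 := by omega
          rw [this]
          norm_num
        · have h4 : (2 : ℝ) ≤ m := by exact_mod_cast h3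
          apply mul_nonneg <;> linarith
      nlinarith
  have hone : ∀ x : Fin n × ZMod p, ∑ c, Zr c x = T / p := by
    intro x
    rw [hZr]
    simp only
    rw [← Finset.sum_filter, Finset.sum_const, nsmul_eq_mul, mul_one]
    have h1 := count_zero (d := d) p {x} (by rw [card_singleton]; omega) f
    have h2 : (univ.filter (fun c : Fin n → Fin d → ZMod p => f x + vv p c x = 0)) =
        univ.filter (fun c : Fin n → Fin d → ZMod p => ∀ y ∈ ({x} : Finset (Fin n × ZMod p)), f y + vv p c y = 0) := by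
      apply Finset.filter_congr
      intro c _
      simp
    rw [h2, h1, card_singleton, pow_one, ← hT]
    ring
  have htwo : ∀ x y : Fin n × ZMod p, x ≠ y → ∑ c, Zr c x * Zr c y = T / (p : ℝ) ^ 2 := by
    intro x y hxy
    have h1 := count_zero (d := d) p {x, y} (by rw [card_pair hxy]; exact hd) f
    have h2 : (univ.filter (fun c : Fin n → Fin d → ZMod p => f x + vv p c x = 0 ∧ f y + vv p c y = 0)) =
        univ.filter (fun c : Fin n → Fin d → ZMod p => ∀ w ∈ ({x, y} : Finset (Fin n × ZMod p)), f w + vv p c w = 0) := by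
      apply Finset.filter_congr
      intro c _
      simp
    have h3 : ∀ c ∈ (univ : Finset (Fin n → Fin d → ZMod p)), Zr c x * Zr c y = if f x + vv p c x = 0 ∧ f y + vv p c y = 0 then 1 else 0 := by
      intro c _
      rw [hZr]
      by_cases ha : f x + vv p c x = 0
      · by_cases hb : f y + vv p c y = 0
        · simp [ha, hb]
        · simp [ha, hb]
      · simp [ha]
    rw [Finset.sum_congr rfl h3, ← Finset.sum_filter, Finset.sum_const, nsmul_eq_mul, mul_one, h2, h1, card_pair hxy, ← hT]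
    ring
  have hsum1 : ∑ c, t c = Q.card * (T / p) := by
    rw [ht]
    simp only
    rw [Finset.sum_comm, Finset.sum_congr rfl (fun x _ => hone x), Finset.sum_const, nsmul_eq_mul]
  have hsq : ∀ (c : Fin n → Fin d → ZMod p) (x : Fin n × ZMod p), Zr c x * Zr c x = Zr c x := by
    intro c x
    rw [hZr]
    simp only
    split_ifs <;> norm_num
  have hsum2 : ∑ c, t c ^ 2 ≤ Q.card * (T / p) + (Q.card : ℝ) ^ 2 * (T / (p : ℝ) ^ 2) := by
    have h1 : ∀ c, t c ^ 2 = ∑ x ∈ Q, ∑ y ∈ Q, Zr c x * Zr c y := by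
      intro c
      rw [ht, sq]
      simp only
      rw [Finset.sum_mul_sum]
    rw [Finset.sum_congr rfl (fun c _ => h1 c), Finset.sum_comm]
    have h2 : ∀ x ∈ Q, ∑ c, ∑ y ∈ Q, Zr c x * Zr c y ≤ T / p + Q.card * (T / (p : ℝ) ^ 2) := by
      intro x hx
      rw [Finset.sum_comm, ← Finset.add_sum_erase Q _ hx]
      apply add_le_add
      · rw [Finset.sum_congr rfl (fun c _ => hsq c x), hone x]
      · have h3 : ∀ y ∈ Q.erase x, ∑ c, Zr c x * Zr c y = T / (p : ℝ) ^ 2 := by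
          intro y hy
          exact htwo x y (Finset.ne_of_mem_erase hy).symm
        rw [Finset.sum_congr rfl h3, Finset.sum_const, nsmul_eq_mul]
        apply mul_le_mul_of_nonneg_right _ (by positivity)
        exact_mod_cast card_le_card (erase_subset _ _)
    refine (Finset.sum_le_sum h2).trans (le_of_eq ?_)
    rw [Finset.sum_const, nsmul_eq_mul]
    ring
  calc ((univ.filter (fun c : Fin n → Fin d → ZMod p => ∀ x ∈ Q, f x + vv p c x ≠ 0)).card : ℝ) =
      ∑ c : Fin n → Fin d → ZMod p, (if (∀ x ∈ Q, f x + vv p c x ≠ 0) then (1 : ℝ) else 0) := by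
        rw [← Finset.sum_filter, Finset.sum_const, nsmul_eq_mul, mul_one]
    _ ≤ ∑ c : Fin n → Fin d → ZMod p, (1 - t c + (t c ^ 2 - t c) / 2) := Finset.sum_le_sum fun c _ => hpt c
    _ = T - ∑ c, t c + (∑ c, t c ^ 2 - ∑ c, t c) / 2 := by
        rw [Finset.sum_add_distrib, Finset.sum_sub_distrib, Finset.sum_const, nsmul_eq_mul, mul_one, huniv, ← Finset.sum_div,
          Finset.sum_sub_distrib]
    _ ≤ T - Q.card * (T / p) + (Q.card : ℝ) ^ 2 * (T / (p : ℝ) ^ 2) / 2 := by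
        rw [hsum1]
        linarith
    _ = (1 - Q.card / (p : ℝ) + (Q.card : ℝ) ^ 2 / (2 * (p : ℝ) ^ 2)) * T := by
        field_simp
    _ = _ := by rw [hT]

open Classical in
/-- **two points, upper bound** -/
lemma om_two_le (A : SF n e) (F : Fin n → ℤ[X]) (hd : 2 ≤ d) (k l : ℕ) (hkl : Disjoint (Qk p A k) (Qk p A l)) :
    (((Om n d p).filter (fun c => good A F p c k ∧ good A F p c l)).card : ℝ) ≤
      (qd p A ^ 2 + 2 * (e : ℝ) ^ 2 / (p : ℝ) ^ 2) * (Om n d p).card := by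
  obtain ⟨hp0, hp1, hp2⟩ := p_bds p
  obtain ⟨Q, hQ⟩ : ∃ Q, Q = Qk p A k ∪ Qk p A l := ⟨_, rfl⟩
  obtain ⟨f, hf⟩ : ∃ f : Fin n × ZMod p → ZMod p, f = fun x => ((F x.1).map (Int.castRingHom (ZMod p))).eval x.2 := ⟨_, rfl⟩
  have h : ((Om n d p).filter (fun c => good A F p c k ∧ good A F p c l)).card =
      ((Om n d p).filter (fun c => ∀ x ∈ Q, f x + vv p (rd p c) x ≠ 0)).card := by
    congr 1
    apply Finset.filter_congr
    intro c _
    rw [good_iff p A F c k Q (by rw [hQ]; exact subset_union_left), good_iff p A F c l Q (by rw [hQ]; exact subset_union_right)]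
    constructor
    · rintro ⟨h1, h2⟩ x hx
      rw [hf]
      rcases mem_union.1 (by rw [← hQ]; exact hx : x ∈ Qk p A k ∪ Qk p A l) with hx' | hx'
      · exact h1 ⟨x, hx⟩ hx'
      · exact h2 ⟨x, hx⟩ hx'
    · intro h1
      rw [hf] at h1
      exact ⟨fun x _ => h1 x x.2, fun x _ => h1 x x.2⟩
  rw [h, Om_count p (fun c => ∀ x ∈ Q, f x + vv p c x ≠ 0), card_Om]
  refine (count_le p Q hd f).trans ?_
  apply mul_le_mul_of_nonneg_right _ (Nat.cast_nonneg _)
  have hcard : Q.card = 2 * nu p A := by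
    rw [hQ, card_union_of_disjoint hkl, card_Qk, card_Qk]
    ring
  have hν : (nu p A : ℝ) ≤ e := by exact_mod_cast nu_le p A
  have hν0 : (0 : ℝ) ≤ nu p A := Nat.cast_nonneg _
  have h3 := one_add_mul_le_pow (show (-2 : ℝ) ≤ -(1 / (p : ℝ)) by linarith) (2 * nu p A)
  have h5 : 1 + -(1 / (p : ℝ)) = 1 - 1 / (p : ℝ) := by ring
  rw [h5] at h3
  have h6 : qd p A ^ 2 = (1 - 1 / (p : ℝ)) ^ (2 * nu p A) := by
    unfold qd
    rw [← pow_mul, mul_comm]
  rw [h6, hcard]
  push_cast at h3 ⊢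
  have h7 : (2 * (nu p A : ℝ)) ^ 2 / (2 * (p : ℝ) ^ 2) ≤ 2 * (e : ℝ) ^ 2 / (p : ℝ) ^ 2 := by
    rw [div_le_div_iff₀ (by positivity) (by positivity)]
    have h8 : (nu p A : ℝ) ^ 2 ≤ (e : ℝ) ^ 2 := pow_le_pow_left₀ hν0 hν 2
    have h9 : (0 : ℝ) ≤ (p : ℝ) ^ 2 := by positivity
    nlinarith [mul_le_mul_of_nonneg_right h8 h9]
  have h8 : (2 * (nu p A : ℝ)) * -(1 / (p : ℝ)) = -(2 * (nu p A : ℝ) / p) := by ring
  rw [h8] at h3
  linarith

open Classical in
/-- the second moment -/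
lemma sum_surv_sq' (A : SF n e) (F : Fin n → ℤ[X]) (hd : e ≤ d) (hd2 : 2 ≤ d) (S : Finset ℕ) (a h : ℕ) (hS : S ⊆ Ioc a (a + h))
    (b q : ℕ) (hq : (q : ZMod p) ≠ 0) :
    ∑ c ∈ Om n d p, ((S.filter (fun k => good A F p c (b + q * k))).card : ℝ) ^ 2 ≤
      ((qd p A ^ 2 + 2 * (e : ℝ) ^ 2 / (p : ℝ) ^ 2) * (S.card : ℝ) ^ 2 + (qd p A - qd p A ^ 2) * ((e : ℝ) ^ 2 * (h * (h / p + 1)))) * (Om n d p).card := by
  have hq0 := (qd_pos p A).le
  have hq1 := qd_le_one p A
  have hN : (0 : ℝ) ≤ (Om n d p).card := Nat.cast_nonneg _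
  have h1 : ∀ c : Fin n → Fin d → ℤ, ((S.filter (fun k => good A F p c (b + q * k))).card : ℝ) ^ 2 =
      ∑ x ∈ S ×ˢ S, if good A F p c (b + q * x.1) ∧ good A F p c (b + q * x.2) then (1 : ℝ) else 0 := by
    intro c
    rw [sq]
    have h2 : ((S.filter (fun k => good A F p c (b + q * k))).card : ℝ) = ∑ k ∈ S, if good A F p c (b + q * k) then (1 : ℝ) else 0 := by
      rw [← Finset.sum_filter, Finset.sum_const, nsmul_eq_mul, mul_one]
    rw [h2, Finset.sum_mul_sum, ← Finset.sum_product']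
    apply Finset.sum_congr rfl
    intro x _
    by_cases ha : good A F p c (b + q * x.1)
    · by_cases hb : good A F p c (b + q * x.2)
      · simp [ha, hb]
      · simp [ha, hb]
    · simp [ha]
  rw [Finset.sum_congr rfl (fun c _ => h1 c), Finset.sum_comm]
  have h3 : ∀ x ∈ S ×ˢ S, ∑ c ∈ Om n d p, (if good A F p c (b + q * x.1) ∧ good A F p c (b + q * x.2) then (1 : ℝ) else 0) ≤
      (qd p A ^ 2 + 2 * (e : ℝ) ^ 2 / (p : ℝ) ^ 2) * (Om n d p).card + (if ¬ Disjoint (Qk p A (b + q * x.1)) (Qk p A (b + q * x.2)) then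
        (qd p A - qd p A ^ 2) * (Om n d p).card else 0) := by
    intro x _
    rw [← Finset.sum_filter, Finset.sum_const, nsmul_eq_mul, mul_one]
    by_cases hx : Disjoint (Qk p A (b + q * x.1)) (Qk p A (b + q * x.2))
    · rw [if_neg (not_not.2 hx), add_zero]
      exact om_two_le p A F hd2 (b + q * x.1) (b + q * x.2) hx
    · rw [if_pos hx]
      have h4 : (((Om n d p).filter (fun c => good A F p c (b + q * x.1) ∧ good A F p c (b + q * x.2))).card : ℝ) ≤
          ((Om n d p).filter (fun c => good A F p c (b + q * x.1))).card := by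
        exact_mod_cast card_le_card (fun c hc => by
          rw [mem_filter] at hc ⊢
          exact ⟨hc.1, hc.2.1⟩)
      rw [om_one p A F hd (b + q * x.1)] at h4
      have h7 : (0 : ℝ) ≤ 2 * (e : ℝ) ^ 2 / (p : ℝ) ^ 2 * (Om n d p).card := by positivity
      nlinarith
  refine (Finset.sum_le_sum h3).trans ?_
  rw [Finset.sum_add_distrib, Finset.sum_const, nsmul_eq_mul, ← Finset.sum_filter, Finset.sum_const, nsmul_eq_mul, card_product]
  have h5 := pairs_Qk p A S a h hS b q hq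
  have h6 : 0 ≤ (qd p A - qd p A ^ 2) * (Om n d p).card := by
    apply mul_nonneg _ hN
    nlinarith
  push_cast
  nlinarith [mul_le_mul_of_nonneg_right h5 h6]

open Classical in
/-- **One step.** -/
theorem step_exp' (A : SF n e) (F : Fin n → ℤ[X]) (D : ℕ) (hF : ∀ i, (F i).natDegree ≤ D) (hD : d ≤ D + 1) (hp : e * D < p)
    (he : 1 ≤ e) (hd : e + 1 ≤ d) (hq : 1 / 2 ≤ qd p A) (a h : ℕ) (S : Finset ℕ) (hS : S ⊆ Ioc a (a + h))
    (b q : ℕ) (hbq : (q : ZMod p) ≠ 0) (σ U v : ℝ) (hσ : |σ| = 1) (hv : 0 ≤ v) (hvU : v ≤ U) (hU : U * (2 * e * (D + 1) * (h / p + 1)) ≤ 1) :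
    (∑ c ∈ (Om n d p).filter (fun c => nd A F p c),
      Real.exp (σ * v * (((S.filter (fun k => good A F p c (b + q * k))).card : ℝ) / qd p A - S.card))) / (Om n d p).card ≤
      Real.exp (e / (p : ℝ) ^ 2 * (U * h) + U ^ 2 * (10 * e / p * ((e : ℝ) ^ 2 * (h * (h / p + 1))))) := by
  have hpp := (Fact.out : p.Prime).pos
  have hp0 : (0 : ℝ) < p := by exact_mod_cast hpp
  have hN := Om_pos (n := n) (d := d) p hpp
  obtain ⟨N, hNd⟩ : ∃ N : ℝ, N = (Om n d p).card := ⟨_, rfl⟩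
  obtain ⟨g, hqd⟩ : ∃ g, g = qd p A := ⟨_, rfl⟩
  have hq1 := qd_le_one p A
  have hqe := qd_ge p A
  have hS1 := sum_surv p A F (by omega : e ≤ d) S b q
  have hS2 := sum_surv_sq' p A F (by omega : e ≤ d) (by omega : 2 ≤ d) S a h hS b q hbq
  have hnnd := few_not_nd p A F D hF hD hp (by omega)
  rw [← hNd] at hN hS1 hS2 hnnd ⊢
  rw [← hqd] at hq hq1 hqe hS1 hS2 ⊢
  have hq0 : 0 < g := by linarith
  have hU0 : 0 ≤ U := hv.trans hvU
  obtain ⟨s, hsd⟩ : ∃ s : ℝ, s = S.card := ⟨_, rfl⟩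
  rw [← hsd] at hS1 hS2 ⊢
  have hs0 : 0 ≤ s := by rw [hsd]; exact Nat.cast_nonneg _
  have hsh : s ≤ h := by
    rw [hsd]
    have := card_le_card hS
    rw [Nat.card_Ioc, Nat.add_sub_cancel_left] at this
    exact_mod_cast this
  obtain ⟨H, hH⟩ : ∃ H : ℝ, H = (h : ℝ) / p + 1 := ⟨_, rfl⟩
  rw [← hH] at hU hS2 ⊢
  have hH1 : 1 ≤ H := by rw [hH]; have : (0 : ℝ) ≤ (h : ℝ) / p := by positivity
                         linarith
  have hhp : (h : ℝ) / p ≤ H := by rw [hH]; linarith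
  obtain ⟨m, hm⟩ : ∃ m : (Fin n → Fin d → ℤ) → ℝ, m = fun c => ((S.filter (fun k => good A F p c (b + q * k))).card : ℝ) := ⟨_, rfl⟩
  obtain ⟨x, hx⟩ : ∃ x : (Fin n → Fin d → ℤ) → ℝ, x = fun c => m c / g - s := ⟨_, rfl⟩
  have hsum0 : ∑ c ∈ Om n d p, x c = 0 := by
    rw [hx]
    simp only
    rw [Finset.sum_sub_distrib, ← Finset.sum_div, Finset.sum_const, nsmul_eq_mul, ← hNd]
    have : ∑ c ∈ Om n d p, m c = g * s * N := by rw [hm]; exact hS1
    rw [this]
    field_simp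
    ring
  have hsum2 : ∑ c ∈ Om n d p, x c ^ 2 ≤ 10 * e / p * ((e : ℝ) ^ 2 * (h * H)) * N := by
    have e1 : ∀ c, x c ^ 2 = 1 / g ^ 2 * m c ^ 2 - 2 * s / g * m c + s ^ 2 := by
      intro c
      rw [hx]
      simp only
      field_simp
      ring
    rw [Finset.sum_congr rfl (fun c _ => e1 c), Finset.sum_add_distrib, Finset.sum_sub_distrib, ← Finset.mul_sum, ← Finset.mul_sum,
      Finset.sum_const, nsmul_eq_mul, ← hNd]
    have e2 : ∑ c ∈ Om n d p, m c = g * s * N := by rw [hm]; exact hS1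
    have e3 : ∑ c ∈ Om n d p, m c ^ 2 ≤ ((g ^ 2 + 2 * (e : ℝ) ^ 2 / (p : ℝ) ^ 2) * s ^ 2 + (g - g ^ 2) * ((e : ℝ) ^ 2 * (h * H))) * N := by rw [hm]; exact hS2
    rw [e2]
    have e4 : 1 / g ^ 2 * ∑ c ∈ Om n d p, m c ^ 2 ≤ 1 / g ^ 2 * (((g ^ 2 + 2 * (e : ℝ) ^ 2 / (p : ℝ) ^ 2) * s ^ 2 + (g - g ^ 2) * ((e : ℝ) ^ 2 * (h * H))) * N) :=
      mul_le_mul_of_nonneg_left e3 (by positivity)
    have e5 : 1 / g ^ 2 * (((g ^ 2 + 2 * (e : ℝ) ^ 2 / (p : ℝ) ^ 2) * s ^ 2 + (g - g ^ 2) * ((e : ℝ) ^ 2 * (h * H))) * N) - 2 * s / g * (g * s * N) + N * s ^ 2 =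
        (1 - g) / g * ((e : ℝ) ^ 2 * (h * H)) * N + 1 / g ^ 2 * (2 * (e : ℝ) ^ 2 / (p : ℝ) ^ 2 * s ^ 2) * N := by
      field_simp
      ring
    have e8 : 1 / g ^ 2 * (2 * (e : ℝ) ^ 2 / (p : ℝ) ^ 2 * s ^ 2) * N ≤ 8 * e / p * ((e : ℝ) ^ 2 * (h * H)) * N := by
      apply mul_le_mul_of_nonneg_right _ hN.le
      have f1 : 1 / g ^ 2 ≤ 4 := by
        rw [div_le_iff₀ (by positivity)]
        nlinarith
      have f2 : s ^ 2 / (p : ℝ) ^ 2 ≤ h * H / p := by
        rw [div_le_div_iff₀ (by positivity) hp0]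
        have g1 : s ^ 2 ≤ (h : ℝ) ^ 2 := pow_le_pow_left₀ hs0 hsh 2
        have g2 : (h : ℝ) ^ 2 * p = h * (h / p) * (p : ℝ) ^ 2 := by
          field_simp
        calc s ^ 2 * (p : ℝ) ≤ (h : ℝ) ^ 2 * p := mul_le_mul_of_nonneg_right g1 hp0.le
          _ = h * (h / p) * (p : ℝ) ^ 2 := g2
          _ ≤ h * H * (p : ℝ) ^ 2 := by gcongr
      have f3 : (e : ℝ) ^ 2 ≤ (e : ℝ) ^ 3 := by
        have : (1 : ℝ) ≤ e := by exact_mod_cast he
        exact pow_le_pow_right₀ this (by norm_num)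
      calc 1 / g ^ 2 * (2 * (e : ℝ) ^ 2 / (p : ℝ) ^ 2 * s ^ 2) = (1 / g ^ 2) * (2 * (e : ℝ) ^ 2 * (s ^ 2 / (p : ℝ) ^ 2)) := by ring
        _ ≤ 4 * (2 * (e : ℝ) ^ 3 * (h * H / p)) := by gcongr
        _ = 8 * e / p * ((e : ℝ) ^ 2 * (h * H)) := by ring
    have e6 : (1 - g) / g ≤ 2 * e / p := by
      rw [div_le_iff₀ hq0]
      have h1 : 1 - g ≤ e / p := by linarith
      have h2 : (0 : ℝ) ≤ e / p := by positivity
      have h3 : 2 * (e : ℝ) / p * g = (e / p) * (2 * g) := by ring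
      rw [h3]
      nlinarith
    have e7 : (1 - g) / g * ((e : ℝ) ^ 2 * (h * H)) * N ≤ 2 * e / p * ((e : ℝ) ^ 2 * (h * H)) * N := by
      have h1 : (0 : ℝ) ≤ (e : ℝ) ^ 2 * (h * H) * N := by positivity
      nlinarith
    have e9 : 10 * (e : ℝ) / p * ((e : ℝ) ^ 2 * (h * H)) * N = 2 * e / p * ((e : ℝ) ^ 2 * (h * H)) * N + 8 * e / p * ((e : ℝ) ^ 2 * (h * H)) * N := by ring
    linarith
  have hndsum : ∑ c ∈ (Om n d p).filter (fun c => nd A F p c), x c ≤ e / (p : ℝ) ^ 2 * h * N ∧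
      0 ≤ ∑ c ∈ (Om n d p).filter (fun c => nd A F p c), x c := by
    have e1 := Finset.sum_filter_add_sum_filter_not (Om n d p) (fun c => nd A F p c) x
    rw [hsum0] at e1
    have e2 : ∀ c ∈ (Om n d p).filter (fun c => ¬ nd A F p c), x c = -s := by
      intro c hc
      rw [mem_filter] at hc
      have : m c = 0 := by
        rw [hm]
        simp only
        rw [Nat.cast_eq_zero, card_eq_zero, filter_eq_empty_iff]
        intro k _ hk
        exact hc.2 ⟨b + q * k, hk⟩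
      rw [hx]
      simp only
      rw [this]
      ring
    rw [Finset.sum_congr rfl e2, Finset.sum_const, nsmul_eq_mul] at e1
    have e3 : (0 : ℝ) ≤ ((Om n d p).filter (fun c => ¬ nd A F p c)).card := Nat.cast_nonneg _
    have e4 : ∑ c ∈ (Om n d p).filter (fun c => nd A F p c), x c = ((Om n d p).filter (fun c => ¬ nd A F p c)).card * s := by linarith
    rw [e4]
    refine ⟨?_, by positivity⟩
    calc (((Om n d p).filter (fun c => ¬ nd A F p c)).card : ℝ) * s ≤ (e / (p : ℝ) ^ 2 * N) * h :=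
          mul_le_mul hnnd hsh hs0 (by positivity)
      _ = e / (p : ℝ) ^ 2 * h * N := by ring
  have hpt : ∀ c ∈ (Om n d p).filter (fun c => nd A F p c), Real.exp (σ * v * x c) ≤ 1 + σ * v * x c + v ^ 2 * x c ^ 2 := by
    intro c hc
    rw [mem_filter] at hc
    have hfb := few_bad p A F D hF hD c hc.2 a h b q hbq
    rw [← hH] at hfb
    obtain ⟨bb, hb⟩ : ∃ bb : ℝ, bb = ((S.filter (fun k => ¬ good A F p c (b + q * k))).card : ℝ) := ⟨_, rfl⟩
    have hb0 : 0 ≤ bb := by rw [hb]; exact Nat.cast_nonneg _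
    have hb1 : bb ≤ e * D * H := by
      rw [hb]
      have h1 : ((S.filter (fun k => ¬ good A F p c (b + q * k))).card : ℝ) ≤ ((Ioc a (a + h)).filter (fun k => ¬ good A F p c (b + q * k))).card := by
        exact_mod_cast card_le_card (filter_subset_filter _ hS)
      push_cast at hfb
      linarith
    have hmb : m c + bb = s := by
      rw [hm, hb, hsd]
      simp only
      have := card_filter_add_card_filter_not (s := S) (fun k => good A F p c (b + q * k))
      exact_mod_cast this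
    have hxb : |x c| ≤ 2 * e * (D + 1) * H := by
      have h1 : x c = s * ((1 - g) / g) - bb / g := by
        rw [hx]
        simp only
        have : m c = s - bb := by linarith
        rw [this]
        field_simp
        ring
      have h2 : 0 ≤ (1 - g) / g := div_nonneg (by linarith) hq0.le
      have h3 : s * ((1 - g) / g) ≤ 2 * e * H := by
        have e6 : (1 - g) / g ≤ 2 * e / p := by
          rw [div_le_iff₀ hq0]
          have h1 : 1 - g ≤ e / p := by linarith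
          have h2 : (0 : ℝ) ≤ e / p := by positivity
          have h3 : 2 * (e : ℝ) / p * g = (e / p) * (2 * g) := by ring
          rw [h3]
          nlinarith
        calc s * ((1 - g) / g) ≤ h * (2 * e / p) := mul_le_mul hsh e6 h2 (Nat.cast_nonneg _)
          _ = 2 * e * (h / p) := by ring
          _ ≤ 2 * e * H := mul_le_mul_of_nonneg_left hhp (by positivity)
      have h4 : bb / g ≤ 2 * (e * D * H) := by
        rw [div_le_iff₀ hq0]
        have : (0 : ℝ) ≤ e * D * H := by positivity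
        nlinarith
      have h5 : 0 ≤ s * ((1 - g) / g) := mul_nonneg hs0 h2
      have h6 : 0 ≤ bb / g := div_nonneg hb0 hq0.le
      have h7 : (0 : ℝ) ≤ 2 * e * H := by positivity
      have h8 : (0 : ℝ) ≤ 2 * (e * D * H) := by positivity
      have h9 : 2 * (e : ℝ) * (D + 1) * H = 2 * e * H + 2 * (e * D * H) := by ring
      rw [h1, h9, abs_le]
      constructor <;> linarith
    have habs : |σ * v * x c| ≤ 1 := by
      rw [abs_mul, abs_mul, hσ, one_mul, abs_of_nonneg hv]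
      have h1 : v * |x c| ≤ U * (2 * e * (D + 1) * H) := mul_le_mul hvU hxb (abs_nonneg _) hU0
      linarith
    have h1 := (abs_le.1 (Real.abs_exp_sub_one_sub_id_le habs)).2
    have h2 : (σ * v * x c) ^ 2 = v ^ 2 * x c ^ 2 := by
      have : σ ^ 2 = 1 := by rw [← sq_abs, hσ]; norm_num
      calc (σ * v * x c) ^ 2 = σ ^ 2 * (v ^ 2 * x c ^ 2) := by ring
        _ = _ := by rw [this, one_mul]
    rw [h2] at h1
    linarith
  have hfin : ∑ c ∈ (Om n d p).filter (fun c => nd A F p c), Real.exp (σ * v * x c) ≤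
      (1 + (e / (p : ℝ) ^ 2 * (U * h) + U ^ 2 * (10 * e / p * ((e : ℝ) ^ 2 * (h * H))))) * N := by
    refine (Finset.sum_le_sum hpt).trans ?_
    rw [Finset.sum_add_distrib, Finset.sum_add_distrib, Finset.sum_const, nsmul_eq_mul, mul_one, ← Finset.mul_sum, ← Finset.mul_sum]
    have h1 : (((Om n d p).filter (fun c => nd A F p c)).card : ℝ) ≤ N := by
      rw [hNd]
      exact_mod_cast card_filter_le _ _
    have h2 : σ * v * ∑ c ∈ (Om n d p).filter (fun c => nd A F p c), x c ≤ U * (e / (p : ℝ) ^ 2 * h * N) := by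
      have hσ1 : σ ≤ 1 := by rw [← hσ]; exact le_abs_self σ
      have h3 : 0 ≤ v * ∑ c ∈ (Om n d p).filter (fun c => nd A F p c), x c := mul_nonneg hv hndsum.2
      calc σ * v * ∑ c ∈ (Om n d p).filter (fun c => nd A F p c), x c = σ * (v * ∑ c ∈ (Om n d p).filter (fun c => nd A F p c), x c) := by ring
        _ ≤ 1 * (v * ∑ c ∈ (Om n d p).filter (fun c => nd A F p c), x c) := mul_le_mul_of_nonneg_right hσ1 h3
        _ = v * ∑ c ∈ (Om n d p).filter (fun c => nd A F p c), x c := one_mul _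
        _ ≤ U * (e / (p : ℝ) ^ 2 * h * N) := mul_le_mul hvU hndsum.1 hndsum.2 hU0
    have h4 : v ^ 2 * ∑ c ∈ (Om n d p).filter (fun c => nd A F p c), x c ^ 2 ≤ U ^ 2 * (10 * e / p * ((e : ℝ) ^ 2 * (h * H)) * N) := by
      have h5 : ∑ c ∈ (Om n d p).filter (fun c => nd A F p c), x c ^ 2 ≤ ∑ c ∈ Om n d p, x c ^ 2 :=
        Finset.sum_le_sum_of_subset_of_nonneg (filter_subset _ _) fun c _ _ => sq_nonneg _
      exact mul_le_mul (pow_le_pow_left₀ hv hvU 2) (h5.trans hsum2) (Finset.sum_nonneg fun c _ => sq_nonneg _) (sq_nonneg _)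
    have h6 : (1 + (e / (p : ℝ) ^ 2 * (U * h) + U ^ 2 * (10 * e / p * ((e : ℝ) ^ 2 * (h * H))))) * N =
        N + U * (e / (p : ℝ) ^ 2 * h * N) + U ^ 2 * (10 * e / p * ((e : ℝ) ^ 2 * (h * H)) * N) := by ring
    rw [h6]
    linarith
  have hfin2 : (∑ c ∈ (Om n d p).filter (fun c => nd A F p c),
      Real.exp (σ * v * (((S.filter (fun k => good A F p c (b + q * k))).card : ℝ) / g - s))) / N ≤
      1 + (e / (p : ℝ) ^ 2 * (U * h) + U ^ 2 * (10 * e / p * ((e : ℝ) ^ 2 * (h * H)))) := by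
    rw [div_le_iff₀ hN]
    refine le_trans (le_of_eq ?_) hfin
    apply Finset.sum_congr rfl
    intro c _
    rw [hx, hm]
  refine hfin2.trans ?_
  have := Real.add_one_le_exp (e / (p : ℝ) ^ 2 * (U * h) + U ^ 2 * (10 * e / p * ((e : ℝ) ^ 2 * (h * H))))
  linarith

end Mod

end Pool.Agent.Q236.SL
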