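import Pool.Agent.Q236.SL.CgL
import Pool.Agent.Q236.SL.CntL
import Pool.Agent.Q236.SH.Mach

set_option autoImplicit false

/-!
# Bateman-Horn for constellations, few coefficients
-/

namespace Pool.Agent.Q236.SL

open Finset Filter Polynomial Pool.Agent.Q236.SH
open Pool.Agent.Q236.RP (ev_log_ge ev_pow_log Box mem_Box card_Box)
open Pool.Agent.Q236.CG (BA mem_BA pri pri_nonneg pri_le mi DD PP MM CZ evm)
open Pool.Agent.Q236.MR (pv ap mem_ap sum_ap)
open Pool.Agent.H373R2.T7 (pz mem_pz Vz)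

variable {n d e : ℕ}

open Classical in
/-- **Bateman-Horn in short intervals of arithmetic progressions, for constellations.** -/
theorem machL (n e B d C : ℕ) (he : 1 ≤ e) (hd : e + 1 ≤ d) (η : ℝ) (hη : 2 * ((e : ℝ) + B + 2) ≤ η) : ∃ A0 : ℕ,
    ∀ (A' D : ℕ) (ε : ℝ), d ≤ D + 1 → 0 < ε → ∀ᶠ X : ℕ in atTop, ∀ b q z a h : ℕ, 1 ≤ q →
    (z : ℝ) ≤ Real.log X ^ A' → Real.log X ^ A0 ≤ z → Real.log X ^ ((e : ℝ) + η) ≤ h →
    ∀ (Q : SF n e) (F : Fin n → ℤ[X]) (Z : Fin n → Fin d → ℤ) (Y : Fin n → Fin d → ℕ) (T : Finset ℕ),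
    (∀ t t', Q.ix t = Q.ix t' → Q.sh t = Q.sh t' → t = t') → (∀ i, (F i).natDegree ≤ D) → (∀ k ∈ ap b q a h, ∀ t, k + Q.sh t ∈ T) →
    (∀ i, CZ C X (fun k => (F i).eval (k : ℤ)) 1 (Z i) (Y i) T) →
    (((BA Z Y).filter (fun c => ¬ |(((Ioc a (a + h)).filter (fun k => ∀ t, (vs Q F c (b + q * k) t).toNat.Prime)).card : ℝ) -
      PQ b q Q F z c / Vz z ^ e * (h / Real.log X ^ e)| ≤ ε * (PQ b q Q F z c / Vz z ^ e * (h / Real.log X ^ e)))).card : ℝ) ≤
      (BA Z Y).card / Real.log X ^ B := by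
  have hη0 : 0 < η := by
    have h1 : (0 : ℝ) ≤ e := Nat.cast_nonneg _
    have h2 : (0 : ℝ) ≤ B := Nat.cast_nonneg _
    linarith
  obtain ⟨A0, hA0⟩ := cgL n d e C (B + 1) he hd (η / 4) (by push_cast; linarith)
  refine ⟨A0 + 1, ?_⟩
  intro A' D ε hD hε
  filter_upwards [hA0 A',
    count_main' n d e D A' C (B + 1) 1 (min ε 1 / 4) one_pos (by positivity) he hd hD,
    core n e D d A' C he hD η ε hη0 hε, ev_log_ge 2] with X hcg hcount hcore hL2 b q z a h hq hz hzC hh Q F Z Y T hinj hF hT hCZ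
  have he1 : (1 : ℝ) ≤ e := by exact_mod_cast he
  have hL1 : 1 ≤ Real.log X := by linarith
  have hLz : Real.log X ≤ z := by
    refine le_trans ?_ hzC
    calc Real.log X = Real.log X ^ 1 := (pow_one _).symm
      _ ≤ Real.log X ^ (A0 + 1) := pow_le_pow_right₀ hL1 (by omega)
  have h1 := hcg z ((pow_le_pow_right₀ hL1 (by omega)).trans hzC) hz Q F Z Y (ap b q a h) T hinj hT hCZ
  have h2 := hcount b q z a h hz hLz (by
    refine le_trans ?_ hh
    exact Real.rpow_le_rpow_of_exponent_le hL1 (by linarith)) Z Y (fun i j => (hCZ i).side j) Q F hF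
  obtain ⟨W, hW⟩ : ∃ W, W = BA Z Y := ⟨_, rfl⟩
  rw [← hW] at h1 h2 ⊢
  have hcard : ((ap b q a h).card : ℝ) = h := by
    have h3 := sum_ap b q a h hq (fun _ => (1 : ℝ))
    rw [Finset.sum_const, Finset.sum_const, nsmul_eq_mul, nsmul_eq_mul, mul_one, mul_one, Nat.card_Ioc, Nat.add_sub_cancel_left] at h3
    exact h3
  rw [hcard] at h1
  have hsub : W.filter (fun c => ¬ |(((Ioc a (a + h)).filter (fun k => ∀ t, (vs Q F c (b + q * k) t).toNat.Prime)).card : ℝ) -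
      PQ b q Q F z c / Vz z ^ e * (h / Real.log X ^ e)| ≤ ε * (PQ b q Q F z c / Vz z ^ e * (h / Real.log X ^ e))) ⊆
      W.filter (fun c => Real.log X ^ (η / 4) * Real.sqrt (1 + h / Real.log X ^ e) < |∑ k ∈ ap b q a h, DD z (vs Q F c k)|) ∪
      W.filter (fun c => ¬ |((Sv b q Q F (Ioc a (a + h)) (pz z) c).card : ℝ) - h * PQ b q Q F z c| ≤
        min ε 1 / 4 * (h * PQ b q Q F z c)) := by
    intro c hc
    rw [mem_filter] at hc
    by_contra hcon
    rw [mem_union, mem_filter, mem_filter] at hcon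
    push Not at hcon
    obtain ⟨hcon1, hcon2⟩ := hcon
    apply hc.2
    have hcW := hc.1
    have g1 := hcon1 hcW
    have g2 := hcon2 hcW
    have hval : ∀ k ∈ Ioc a (a + h), ∀ t, (X : ℝ) / Real.log X ^ C ≤ vs Q F c (b + q * k) t ∧
        (vs Q F c (b + q * k) t : ℝ) ≤ X * Real.log X ^ C := by
      intro k hk t
      rw [hW, mem_BA] at hcW
      rw [vs_evm]
      exact ⟨(hCZ _).low _ (hT _ (mem_ap b q a h k hk) t) _ (hcW _), (hCZ _).up _ (hT _ (mem_ap b q a h k hk) t) _ (hcW _)⟩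
    have hsum : ∑ k ∈ ap b q a h, DD z (vs Q F c k) =
        ∑ k ∈ Ioc a (a + h), ∏ t, pri (vs Q F c (b + q * k) t) - ∑ k ∈ Ioc a (a + h), ∏ t, mi z (vs Q F c (b + q * k) t) := by
      rw [sum_ap b q a h hq, ← Finset.sum_sub_distrib]
      rfl
    rw [hsum] at g1
    exact hcore b q z a h hz hLz hh Q F c hF hval g1 g2
  have h4 : ((W.filter (fun c => ¬ |(((Ioc a (a + h)).filter (fun k => ∀ t, (vs Q F c (b + q * k) t).toNat.Prime)).card : ℝ) -
      PQ b q Q F z c / Vz z ^ e * (h / Real.log X ^ e)| ≤ ε * (PQ b q Q F z c / Vz z ^ e * (h / Real.log X ^ e)))).card : ℝ) ≤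
      W.card / Real.log X ^ (B + 1) + W.card / Real.log X ^ (B + 1) := by
    have h5 := (card_le_card hsub).trans (card_union_le _ _)
    have h6 := (Nat.cast_le (α := ℝ)).2 h5
    push_cast at h6
    linarith
  refine h4.trans ?_
  have hLB : 0 < Real.log (X : ℝ) ^ B := by positivity
  rw [pow_succ, ← two_mul, mul_div_assoc', div_le_div_iff₀ (by positivity) hLB]
  have hW0 : (0 : ℝ) ≤ W.card := Nat.cast_nonneg _
  nlinarith [mul_nonneg hW0 hLB.le]

end Pool.Agent.Q236.SL
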