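import Pool.Agent.Q236.SL.AvgT
import Pool.Agent.Q236.SH.Orth

set_option autoImplicit false

/-!
# Constellations at two arguments: the primes minus the model are orthogonal
-/

namespace Pool.Agent.Q236.SL

open Finset Filter Polynomial
open Pool.Agent.Q236.RP (ev_log_ge ev_pow_log Box mem_Box card_Box sv)
open Pool.Agent.Q236.CG (BA mem_BA upd_mem sum_upd di pri pri_nonneg pri_le mi mi_small DD PP MM DD_sum CZ evm evm_sv cl cl_abs cl_eq)
open Pool.Agent.Q236.MR (pv)
open Pool.Agent.Q236.SH (SF vs vs_evm)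

variable {n d e : ℕ}

/-- **Orthogonality at two arguments** -/
theorem orthT (n d e B C : ℕ) (hd : e + 1 ≤ d) : ∃ A0 : ℕ, ∀ A : ℕ, ∀ᶠ X : ℕ in atTop, ∀ z : ℕ, Real.log X ^ A0 ≤ z →
    (z : ℝ) ≤ Real.log X ^ A → ∀ (Q : SF n e) (F : Fin n → ℤ[X]) (Z : Fin n → Fin d → ℤ) (Y : Fin n → Fin d → ℕ) (T : Finset ℕ)
    (k l : ℕ), (∀ t t', Q.ix t = Q.ix t' → Q.sh t = Q.sh t' → t = t') → (∀ t, k + Q.sh t ∈ T) → (∀ t, l + Q.sh t ∈ T) →
    (∀ t t', Q.ix t = Q.ix t' → k + Q.sh t ≠ l + Q.sh t') →
    (∀ i, CZ C X (fun k => (F i).eval (k : ℤ)) 1 (Z i) (Y i) T) →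
    |∑ c ∈ BA Z Y, DD z (vs Q F c k) * DD z (vs Q F c l)| ≤ (BA Z Y).card / Real.log X ^ B := by
  obtain ⟨A0, hA0⟩ := avg_two d (B + 1) C
  refine ⟨A0, ?_⟩
  intro A
  filter_upwards [hA0 A, mi_small A C (1 / 2) (by norm_num), ev_log_ge 1, ev_log_ge e,
    ev_pow_log (C + 1)] with X havg hmi hL1 hLn hP z hz1 hz2 Q F Z Y T k l hinj hkT hlT hfree hsz
  obtain ⟨L, hL⟩ : ∃ L, L = Real.log (X : ℝ) := ⟨_, rfl⟩
  rw [← hL] at havg hmi hL1 hLn hP hz1 hz2 ⊢
  have hL0 : 0 < L := by linarith
  have hLp : ∀ j : ℕ, 0 < L ^ j := fun j => by positivity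
  have hLp1 : ∀ j : ℕ, 1 ≤ L ^ j := fun j => one_le_pow₀ hL1
  have hXp : (0 : ℝ) < X := lt_of_lt_of_le (hLp _) hP
  have hz1' : 1 ≤ z := by
    have : (1 : ℝ) ≤ z := (hLp1 _).trans hz1
    exact_mod_cast this
  have hmi1 : ∀ v : ℤ, (X : ℝ) / L ^ C ≤ v → 0 ≤ mi z v ∧ mi z v ≤ 1 := by
    intro v hv
    have h1 := hmi z v hz1' hz2 hv
    refine ⟨h1.1, h1.2.trans ?_⟩
    rw [div_le_one hL0]
    calc L ^ (1 / 2 : ℝ) ≤ L ^ (1 : ℝ) := Real.rpow_le_rpow_of_exponent_le hL1 (by norm_num)
      _ = L := Real.rpow_one L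
  have hlow : ∀ m : ℕ, (∀ t, m + Q.sh t ∈ T) → ∀ c ∈ BA Z Y, ∀ j, (X : ℝ) / L ^ C ≤ vs Q F c m j := by
    intro m hm c hc j
    have h2 := (hsz (Q.ix j)).low (m + Q.sh j) (hm j) (c (Q.ix j)) ((mem_BA Z Y c).1 hc _)
    rw [← hL] at h2
    rw [vs_evm]
    exact h2
  have hDD : ∀ c ∈ BA Z Y, |DD z (vs Q F c l)| ≤ 1 := by
    intro c hc
    have h1 : 0 ≤ PP (vs Q F c l) := Finset.prod_nonneg fun i _ => pri_nonneg _
    have h2 : PP (vs Q F c l) ≤ 1 := Finset.prod_le_one (fun i _ => pri_nonneg _) (fun i _ => pri_le _)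
    have h3 : 0 ≤ MM z (vs Q F c l) := Finset.prod_nonneg fun i _ => (hmi1 _ (hlow l hlT c hc i)).1
    have h4 : MM z (vs Q F c l) ≤ 1 := Finset.prod_le_one (fun i _ => (hmi1 _ (hlow l hlT c hc i)).1) (fun i _ => (hmi1 _ (hlow l hlT c hc i)).2)
    unfold DD
    rw [abs_le]
    constructor <;> linarith
  have hkey : ∀ t : Fin e, |∑ c ∈ BA Z Y, (di z (vs Q F c k t) *
      ((∏ j ∈ univ.filter (fun j => j < t), pri (vs Q F c k j)) *
        ∏ j ∈ univ.filter (fun j => t < j), mi z (vs Q F c k j))) * DD z (vs Q F c l)| ≤ (BA Z Y).card / L ^ (B + 1) := by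
    intro t
    obtain ⟨i, hi⟩ : ∃ i, i = Q.ix t := ⟨_, rfl⟩
    obtain ⟨H, hH⟩ : ∃ H : (Fin n → Fin d → ℤ) → ℝ, H = fun c => (di z (vs Q F c k t) *
      ((∏ j ∈ univ.filter (fun j => j < t), pri (vs Q F c k j)) *
        ∏ j ∈ univ.filter (fun j => t < j), mi z (vs Q F c k j))) * DD z (vs Q F c l) := ⟨_, rfl⟩
    obtain ⟨J1, hJ1⟩ : ∃ J1 : Finset ℕ, J1 = (univ.filter (fun j => Q.ix j = i)).image (fun j => l + Q.sh j) := ⟨_, rfl⟩
    obtain ⟨J2, hJ2⟩ : ∃ J2 : Finset ℕ, J2 = ((univ.erase t).filter (fun j => Q.ix j = i)).image (fun j => k + Q.sh j) := ⟨_, rfl⟩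
    have hJ1d : J1.card < d := by
      rw [hJ1]
      have h1 : ((univ.filter (fun j => Q.ix j = i)).image (fun j => l + Q.sh j)).card ≤ e :=
        (card_image_le.trans (card_filter_le _ _)).trans (by rw [card_univ, Fintype.card_fin])
      omega
    have hJ2d : J2.card < d := by
      rw [hJ2]
      have h1 : (((univ.erase t).filter (fun j => Q.ix j = i)).image (fun j => k + Q.sh j)).card ≤ e :=
        (card_image_le.trans (card_filter_le _ _)).trans ((card_le_card (erase_subset _ _)).trans (by rw [card_univ, Fintype.card_fin]))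
      omega
    have hm1 : ∀ j, Q.ix j = i → l + Q.sh j ∈ J1 := by
      intro j hj
      rw [hJ1, mem_image]
      exact ⟨j, mem_filter.2 ⟨mem_univ _, hj⟩, rfl⟩
    have hm2 : ∀ j, j ≠ t → Q.ix j = i → k + Q.sh j ∈ J2 := by
      intro j hne hj
      rw [hJ2, mem_image]
      exact ⟨j, mem_filter.2 ⟨mem_erase.2 ⟨hne, mem_univ _⟩, hj⟩, rfl⟩
    have hx1 : k + Q.sh t ∉ J1 := by
      intro hx
      rw [hJ1, mem_image] at hx
      obtain ⟨j, hj1, hj2⟩ := hx
      rw [mem_filter] at hj1
      exact hfree t j (by rw [hj1.2, hi]) hj2.symm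
    have hx2 : k + Q.sh t ∉ J2 := by
      intro hx
      rw [hJ2, mem_image] at hx
      obtain ⟨j, hj1, hj2⟩ := hx
      rw [mem_filter, mem_erase] at hj1
      apply hj1.1.1
      exact hinj j t (by rw [hj1.2, hi]) (by omega)
    have hTsub : insert (k + Q.sh t) (J1 ∪ J2) ⊆ T := by
      intro x hx
      rw [mem_insert, mem_union] at hx
      rcases hx with hx | hx | hx
      · rw [hx]
        exact hkT t
      · rw [hJ1, mem_image] at hx
        obtain ⟨j, _, hj⟩ := hx
        rw [← hj]
        exact hlT j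
      · rw [hJ2, mem_image] at hx
        obtain ⟨j, _, hj⟩ := hx
        rw [← hj]
        exact hkT j
    have hsum := sum_upd Z Y i H
    have hYpos : ∀ j, 1 ≤ Y i j := by
      intro j
      have h1 := (hsz i).side j
      rw [← hL] at h1
      have h2 : (0 : ℝ) < X / L ^ C := by positivity
      have : (0 : ℝ) < Y i j := lt_of_lt_of_le h2 h1
      exact_mod_cast this
    have hcard : (0 : ℝ) < (Box (Z i) (Y i)).card := by
      rw [card_Box]
      push_cast
      apply Finset.prod_pos
      intro j _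
      exact_mod_cast hYpos j
    -- the values which do not change
    have hinv1 : ∀ (c : Fin n → Fin d → ℤ) (b : Fin d → ℤ) (x : ℤ) (j : Fin e),
        vs Q F (Function.update c i (b + sv d 1 J1 x)) l j = vs Q F (Function.update c i b) l j := by
      intro c b x j
      rw [vs_evm, vs_evm]
      by_cases hj : Q.ix j = i
      · rw [hj, Function.update_self, Function.update_self, evm_sv _ _ _ J1 hJ1d, Finset.prod_eq_zero (hm1 j hj) (sub_self _),
          mul_zero, mul_zero, add_zero]
      · rw [Function.update_of_ne hj, Function.update_of_ne hj]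
    have hinv2 : ∀ (c : Fin n → Fin d → ℤ) (b : Fin d → ℤ) (y : ℤ) (j : Fin e), j ≠ t →
        vs Q F (Function.update c i (b + sv d 1 J2 y)) k j = vs Q F (Function.update c i b) k j := by
      intro c b y j hne
      rw [vs_evm, vs_evm]
      by_cases hj : Q.ix j = i
      · rw [hj, Function.update_self, Function.update_self, evm_sv _ _ _ J2 hJ2d, Finset.prod_eq_zero (hm2 j hne hj) (sub_self _),
          mul_zero, mul_zero, add_zero]
      · rw [Function.update_of_ne hj, Function.update_of_ne hj]
    have hbound : |∑ c ∈ BA Z Y, ∑ b ∈ Box (Z i) (Y i), H (Function.update c i b)| ≤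
        (BA Z Y).card * ((Box (Z i) (Y i)).card / L ^ (B + 1)) := by
      refine (Finset.abs_sum_le_sum_abs _ _).trans ?_
      calc ∑ c ∈ BA Z Y, |∑ b ∈ Box (Z i) (Y i), H (Function.update c i b)| ≤
          ∑ _c ∈ BA Z Y, ((Box (Z i) (Y i)).card : ℝ) / L ^ (B + 1) := by
            apply Finset.sum_le_sum
            intro c hc
            have h1 := havg z hz1 hz2 (fun k => (F i).eval (k : ℤ)) (Z i) (Y i) J1 J2 (k + Q.sh t) hx1 hx2 hJ1d hJ2d
              ((hsz i).mono hTsub)
              (fun b => cl (DD z (vs Q F (Function.update c i b) l)))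
              (fun b => (∏ j ∈ univ.filter (fun j => j < t), pri (vs Q F (Function.update c i b) k j)) *
                ∏ j ∈ univ.filter (fun j => t < j), cl (mi z (vs Q F (Function.update c i b) k j))) (fun b => cl_abs _) (by
              intro b
              rw [abs_mul, Finset.abs_prod, Finset.abs_prod]
              apply mul_le_one₀
              · apply Finset.prod_le_one (fun j _ => abs_nonneg _)
                intro j _
                rw [abs_of_nonneg (pri_nonneg _)]
                exact pri_le _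
              · exact Finset.prod_nonneg fun j _ => abs_nonneg _
              · apply Finset.prod_le_one (fun j _ => abs_nonneg _)
                intro j _
                exact cl_abs _) (by
              intro b x
              congr 2
              funext j
              exact hinv1 c b x j) (by
              intro b y
              congr 1
              · apply Finset.prod_congr rfl
                intro j hj
                rw [hinv2 c b y j (mem_filter.1 hj).2.ne]
              · apply Finset.prod_congr rfl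
                intro j hj
                rw [hinv2 c b y j (mem_filter.1 hj).2.ne'])
            refine le_trans (le_of_eq ?_) h1
            congr 1
            apply Finset.sum_congr rfl
            intro b hb
            have hub := upd_mem Z Y c hc i b hb
            rw [hH]
            simp only
            have e1 : vs Q F (Function.update c i b) k t = evm (fun k => (F i).eval (k : ℤ)) 1 b (k + Q.sh t) := by
              rw [vs_evm, ← hi, Function.update_self]
            have e2 : cl (DD z (vs Q F (Function.update c i b) l)) = DD z (vs Q F (Function.update c i b) l) := cl_eq _ (hDD _ hub)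
            have e3 : ∏ j ∈ univ.filter (fun j => t < j), cl (mi z (vs Q F (Function.update c i b) k j)) =
                ∏ j ∈ univ.filter (fun j => t < j), mi z (vs Q F (Function.update c i b) k j) := by
              apply Finset.prod_congr rfl
              intro j _
              have h3 := hmi1 _ (hlow k hkT _ hub j)
              apply cl_eq
              rw [abs_of_nonneg h3.1]
              exact h3.2
            rw [e1, e2, e3]
            ring
        _ = _ := by rw [Finset.sum_const, nsmul_eq_mul]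
    rw [hsum, abs_mul, abs_of_pos hcard] at hbound
    have h2 : ((Box (Z i) (Y i)).card : ℝ) * |∑ c ∈ BA Z Y, H c| ≤ (Box (Z i) (Y i)).card * ((BA Z Y).card / L ^ (B + 1)) := by
      refine hbound.trans (le_of_eq ?_)
      ring
    have h3 := le_of_mul_le_mul_left h2 hcard
    rw [hH] at h3
    exact h3
  have hsplit : ∑ c ∈ BA Z Y, DD z (vs Q F c k) * DD z (vs Q F c l) = ∑ t : Fin e, ∑ c ∈ BA Z Y, (di z (vs Q F c k t) *
      ((∏ j ∈ univ.filter (fun j => j < t), pri (vs Q F c k j)) *
        ∏ j ∈ univ.filter (fun j => t < j), mi z (vs Q F c k j))) * DD z (vs Q F c l) := by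
    rw [Finset.sum_comm]
    apply Finset.sum_congr rfl
    intro c _
    rw [DD_sum z (vs Q F c k), Finset.sum_mul]
  rw [hsplit]
  refine (Finset.abs_sum_le_sum_abs _ _).trans ?_
  refine (Finset.sum_le_sum (fun i _ => hkey i)).trans ?_
  rw [Finset.sum_const, card_univ, Fintype.card_fin, nsmul_eq_mul]
  have hb0 : (0 : ℝ) ≤ (BA Z Y).card := Nat.cast_nonneg _
  calc (e : ℝ) * ((BA Z Y).card / L ^ (B + 1)) = (e / L) * ((BA Z Y).card / L ^ B) := by
        rw [pow_succ]
        field_simp
    _ ≤ 1 * ((BA Z Y).card / L ^ B) := by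
        apply mul_le_mul_of_nonneg_right _ (by positivity)
        rw [div_le_one hL0]
        exact hLn
    _ = _ := one_mul _

end Pool.Agent.Q236.SL
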