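import Pool.Agent.Q236.SL.AllL
import Pool.Agent.Q236.SH.Pat

set_option autoImplicit false

/-!
# Exact patterns of primes: low degree
-/

namespace Pool.Agent.Q236.SL

open Finset Filter Polynomial Pool.Agent.Q236.SH
open Pool.Agent.Q236.RP (Box mem_Box card_Box ev_log_ge ev_pow_log)
open Pool.Agent.Q236.CG (BA mem_BA CZ evm Vz_inv_eta)
open Pool.Agent.Q236.MR (pv ap mem_ap sum_ap marg')
open Pool.Agent.H373R2.T7 (pz mem_pz Vz Vz_pos Vz_le_one)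

variable {m d : ℕ}

/-- the admissible data of a finite set -/
def Adm (E E2 E3 X : ℕ) (S : Finset (Fin m × ℕ)) (b q a h : ℕ) : Prop :=
  1 ≤ q ∧ (b : ℝ) ≤ Real.log X ^ E ∧ (q : ℝ) ≤ Real.log X ^ E ∧ (∀ x ∈ S, (x.2 : ℝ) ≤ Real.log X ^ E) ∧
    (∀ x ∈ S, ((b + q * (a + h) + x.2 : ℕ) : ℝ) ≤ Real.log X ^ E3) ∧ Real.log X ^ E2 ≤ h ∧ (a : ℝ) ≤ h * Real.log X ^ E

/-- the formula for all constellations -/
def RegL (N E E2 E3 : ℕ) (ε : ℝ) (X z : ℕ) (F : Fin m → ℤ[X]) (c : Fin m → Fin d → ℤ) : Prop :=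
  ∀ (S : Finset (Fin m × ℕ)) (b q a h : ℕ), 1 ≤ S.card → S.card ≤ N → Adm E E2 E3 X S b q a h →
    |(cntF F c S b q a h : ℝ) - sgF F c S b q z * (h / Real.log X ^ S.card)| ≤ ε * (sgF F c S b q z * (h / Real.log X ^ S.card))

open Classical in
/-- **All constellations** -/
theorem all_regL (N B E d : ℕ) (hN : 1 ≤ N) (hd : N + 1 ≤ d) : ∃ E2 : ℕ, ∀ E3 C : ℕ, ∃ A0 : ℕ, ∀ (A D : ℕ) (ε : ℝ), 0 < ε →
    ∀ᶠ X : ℕ in atTop, ∀ z : ℕ, Real.log X ^ A0 ≤ z → (z : ℝ) ≤ Real.log X ^ A →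
    ∀ m : ℕ, (m : ℝ) ≤ Real.log X ^ E → ∀ (F : Fin m → ℤ[X]) (Z : Fin m → Fin d → ℤ) (Y : Fin m → Fin d → ℕ),
    (∀ i, (F i).natDegree ≤ D) → (∀ i j, (X : ℝ) / Real.log X ^ C ≤ Y i j) →
    (∀ i, ∀ c ∈ Box (Z i) (Y i), ∀ k : ℕ, 1 ≤ k → (k : ℝ) ≤ Real.log X ^ (E3 + 1) →
      (X : ℝ) / Real.log X ^ C ≤ evm (fun k => (F i).eval (k : ℤ)) 1 c k ∧ (evm (fun k => (F i).eval (k : ℤ)) 1 c k : ℝ) ≤ X * Real.log X ^ C) →
    (((BA Z Y).filter (fun c => ¬ RegL N E E2 E3 ε X z F c)).card : ℝ) ≤ (BA Z Y).card / Real.log X ^ B := by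
  obtain ⟨E2, hE2⟩ := all_low N B E d hN hd
  refine ⟨E2, ?_⟩
  intro E3 C
  obtain ⟨A0, hA0⟩ := hE2 E3 C
  refine ⟨A0, ?_⟩
  intro A D ε hε
  filter_upwards [hA0 A D ε hε] with X hX z hz1 hz2 m hm F Z Y hF hY hval
  refine le_trans ?_ (hX z hz1 hz2 m hm F Z Y hF hY hval)
  exact_mod_cast card_le_card (fun c hc => by
    rw [mem_filter] at hc ⊢
    refine ⟨hc.1, ?_⟩
    have h1 := hc.2
    unfold RegL at h1
    push Not at h1
    obtain ⟨S, b, q, a, h, hS1, hSN, ⟨hq, hb, hqL, hsh, hpts, hh, ha⟩, hbad⟩ := h1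
    refine ⟨S.card, QS S, b, q, a, h, hS1, hSN, ⟨QS_inj S, hq, hb, hqL, ?_, ?_, hh, ha⟩, ?_⟩
    · exact (QS_all S (fun x => ((x.2 : ℕ) : ℝ) ≤ Real.log X ^ E)).2 hsh
    · exact (QS_all S (fun x => ((b + q * (a + h) + x.2 : ℕ) : ℝ) ≤ Real.log X ^ E3)).2 hpts
    · unfold Bad
      rw [cnt_QS, sg_QS, not_le]
      exact hbad)

open Classical in
/-- **Exact patterns** -/
theorem reg_exactL (N E E2 E3 A : ℕ) (δ ε : ℝ) (hδ : 0 < δ) (hε : 0 < ε) (hE : 1 ≤ E) : ∀ᶠ X : ℕ in atTop, ∀ z : ℕ, 1 ≤ z →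
    (z : ℝ) ≤ Real.log X ^ A → ∀ (m d : ℕ) (F : Fin m → ℤ[X]) (c : Fin m → Fin d → ℤ), RegL N E E2 E3 (min ε 1 / 4) X z F c →
    ∀ (J : Finset (Fin m)) (R : ℕ) (S : Finset (Fin m × ℕ)) (b q a h : ℕ), 1 ≤ S.card → S.card + 1 ≤ N → S ⊆ J ×ˢ range (R + 1) →
    (J.card : ℝ) * (R + 1) ≤ Real.log X ^ (1 - δ) → 1 ≤ q → (b : ℝ) ≤ Real.log X ^ E → (q : ℝ) ≤ Real.log X ^ E →
    ((b + q * (a + h) + R : ℕ) : ℝ) ≤ Real.log X ^ E3 → Real.log X ^ E2 ≤ h → (a : ℝ) ≤ h * Real.log X ^ E →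
    |(exF F c J R S b q a h : ℝ) - sgF F c S b q z * (h / Real.log X ^ S.card)| ≤ ε * (sgF F c S b q z * (h / Real.log X ^ S.card)) := by
  obtain ⟨τ, hτ⟩ : ∃ τ : ℝ, τ = min ε 1 / 4 := ⟨_, rfl⟩
  have hτ0 : 0 < τ := by rw [hτ]; positivity
  have hτ1 : τ ≤ 1 / 4 := by
    rw [hτ]
    have := min_le_right ε 1
    linarith
  have hτε : 4 * τ ≤ ε := by
    rw [hτ]
    have := min_le_left ε 1
    linarith
  have hδ2 : 0 < δ / 2 := by positivity
  have hbig : ∀ᶠ X : ℕ in atTop, 2 / τ ≤ Real.log X ^ (δ / 2) :=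
    ((tendsto_rpow_atTop hδ2).comp (Real.tendsto_log_atTop.comp
      (tendsto_natCast_atTop_atTop (R := ℝ)))).eventually_ge_atTop _
  filter_upwards [Vz_inv_eta A (δ / 2) hδ2, hbig, ev_log_ge 1] with X hV hbig hL1 z hz1 hz2 m d F c hreg J R S b q a h hS1 hSN hSJ
    hJR hq hb hqL hpts hh ha
  rw [← hτ] at hreg
  have hV := hV z hz1 hz2
  obtain ⟨L, hL⟩ : ∃ L, L = Real.log (X : ℝ) := ⟨_, rfl⟩
  unfold RegL Adm at hreg
  rw [← hL] at hV hbig hL1 hJR hpts hh hb hqL ha hreg ⊢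
  have hL0 : 0 < L := by linarith
  have hV0 := Vz_pos z
  have hR : ∀ x ∈ J ×ˢ range (R + 1), (x.2 : ℝ) ≤ L ^ E := by
    intro x hx
    rw [mem_product, mem_range] at hx
    have h1 : (x.2 : ℝ) ≤ R + 1 := by exact_mod_cast (by omega : x.2 ≤ R + 1)
    have h2 : (1 : ℝ) ≤ J.card := by
      have : 0 < J.card := card_pos.2 ⟨x.1, hx.1⟩
      exact_mod_cast this
    have h3 : L ^ (1 - δ) ≤ L ^ (1 : ℝ) := Real.rpow_le_rpow_of_exponent_le hL1 (by linarith)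
    rw [Real.rpow_one] at h3
    have h4 : L ≤ L ^ E := by
      calc L = L ^ 1 := (pow_one _).symm
        _ ≤ L ^ E := pow_le_pow_right₀ hL1 hE
    have h5 : (0 : ℝ) ≤ R := Nat.cast_nonneg _
    nlinarith
  have hptsx : ∀ x ∈ J ×ˢ range (R + 1), ((b + q * (a + h) + x.2 : ℕ) : ℝ) ≤ L ^ E3 := by
    intro x hx
    rw [mem_product, mem_range] at hx
    refine le_trans ?_ hpts
    have : b + q * (a + h) + x.2 ≤ b + q * (a + h) + R := by omega
    exact_mod_cast this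
  obtain ⟨M, hM⟩ : ∃ M, M = sgF F c S b q z * (h / L ^ S.card) := ⟨_, rfl⟩
  rw [← hM]
  have hM0 : 0 ≤ M := by rw [hM]; exact mul_nonneg (sgF_nonneg F c S b q z) (by positivity)
  have h1 := hreg S b q a h hS1 (by omega) ⟨hq, hb, hqL, fun x hx => hR x (hSJ hx), fun x hx => hptsx x (hSJ hx), hh, ha⟩
  rw [← hM] at h1
  have h2 : ∀ x ∈ (J ×ˢ range (R + 1)) \ S, (cntF F c (insert x S) b q a h : ℝ) ≤ 2 * M * (L ^ (δ / 2) / L) := by
    intro x hx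
    rw [Finset.mem_sdiff] at hx
    have hc : (insert x S).card = S.card + 1 := card_insert_of_notMem hx.2
    have hins : ∀ y ∈ insert x S, y ∈ J ×ˢ range (R + 1) := by
      intro y hy
      rw [mem_insert] at hy
      rcases hy with hy | hy
      · rw [hy]; exact hx.1
      · exact hSJ hy
    have h3 := hreg (insert x S) b q a h (by omega) (by omega) ⟨hq, hb, hqL, fun y hy => hR y (hins y hy),
      fun y hy => hptsx y (hins y hy), hh, ha⟩
    have h4 := sgF_insert F c S b q z x hx.2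
    have h5 : sgF F c (insert x S) b q z * (h / L ^ (insert x S).card) ≤ M * (L ^ (δ / 2) / L) := by
      rw [hc]
      calc sgF F c (insert x S) b q z * (h / L ^ (S.card + 1)) ≤ (sgF F c S b q z * (1 / Vz z)) * (h / L ^ (S.card + 1)) :=
            mul_le_mul_of_nonneg_right h4 (by positivity)
        _ ≤ (sgF F c S b q z * L ^ (δ / 2)) * (h / L ^ (S.card + 1)) := by
            apply mul_le_mul_of_nonneg_right _ (by positivity)
            rw [one_div]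
            exact mul_le_mul_of_nonneg_left hV (sgF_nonneg F c S b q z)
        _ = M * (L ^ (δ / 2) / L) := by
            rw [hM, pow_succ]
            field_simp
    have h6 : 0 ≤ sgF F c (insert x S) b q z * (h / L ^ (insert x S).card) :=
      mul_nonneg (sgF_nonneg F c _ b q z) (by positivity)
    have h7 := (abs_le.1 h3).2
    nlinarith
  have h3 : ∑ x ∈ (J ×ˢ range (R + 1)) \ S, (cntF F c (insert x S) b q a h : ℝ) ≤ τ * M := by
    have h4 : (((J ×ˢ range (R + 1)) \ S).card : ℝ) ≤ L ^ (1 - δ) := by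
      have h5 : (((J ×ˢ range (R + 1)) \ S).card : ℝ) ≤ (J ×ˢ range (R + 1)).card := by exact_mod_cast card_le_card sdiff_subset
      rw [card_product, card_range] at h5
      push_cast at h5
      linarith
    have hLδ : 0 < L ^ (δ / 2) := Real.rpow_pos_of_pos hL0 _
    have h6 : L ^ (1 - δ) * (L ^ (δ / 2) / L) = 1 / L ^ (δ / 2) := by
      have e1 : L ^ (1 - δ) * L ^ (δ / 2) * L ^ (δ / 2) = L := by
        rw [← Real.rpow_add hL0, ← Real.rpow_add hL0]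
        have : 1 - δ + δ / 2 + δ / 2 = 1 := by ring
        rw [this, Real.rpow_one]
      rw [mul_div_assoc', div_eq_div_iff hL0.ne' hLδ.ne', one_mul]
      exact e1
    calc ∑ x ∈ (J ×ˢ range (R + 1)) \ S, (cntF F c (insert x S) b q a h : ℝ) ≤
        ∑ _x ∈ (J ×ˢ range (R + 1)) \ S, 2 * M * (L ^ (δ / 2) / L) := Finset.sum_le_sum h2
      _ = (((J ×ˢ range (R + 1)) \ S).card : ℝ) * (2 * M * (L ^ (δ / 2) / L)) := by rw [Finset.sum_const, nsmul_eq_mul]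
      _ ≤ L ^ (1 - δ) * (2 * M * (L ^ (δ / 2) / L)) := mul_le_mul_of_nonneg_right h4 (by positivity)
      _ = 2 * M * (L ^ (1 - δ) * (L ^ (δ / 2) / L)) := by ring
      _ = 2 * M * (1 / L ^ (δ / 2)) := by rw [h6]
      _ ≤ τ * M := by
          have h7 : 2 * (1 / L ^ (δ / 2)) ≤ τ := by
            rw [mul_one_div, div_le_iff₀ hLδ]
            rw [div_le_iff₀ hτ0] at hbig
            linarith
          nlinarith
  have h4 := ex_lower F c J R S b q a h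
  have h5 := ex_upper F c J R S hSJ b q a h
  have h6 := abs_le.1 h1
  have h7 : 4 * τ * M ≤ ε * M := mul_le_mul_of_nonneg_right hτε hM0
  rw [abs_le]
  constructor <;> nlinarith [h6.1, h6.2, mul_nonneg hτ0.le hM0]

end Pool.Agent.Q236.SL
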